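import Pool.Agent.Helper9.QP.Main
import Pool.Agent.Helper71.QP.Trans
import Pool.Agent.Helper49.QP.Fib
import Pool.Agent.Helper79.QP.Desc

/-!
# Cyclic covers of the plane branched along a quartic curve and a double conic: the theorem
-/

set_option autoImplicit false

namespace Pool.Agent.Helper9.QP

open Pool.Agent.Helper29.PF (StableClass)

theorem blocks : Blocks where
  cone_mem h2 hG c h := Pool.Agent.Helper71.QP.cone_mem h2 hG c h
  cone_tr h2 hG c q v hv h hq hD := Pool.Agent.Helper71.QP.cone_tr h2 hG c q v hv h hq hD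
  cone_conic hG _ _ _ _ hW c q hq e h4 :=
    Pool.Agent.Helper49.QP.cone_conic hG hW c q hq e h4
  fib_ne h2 hG _ _ _ _ hW c q hc hq e he hQ :=
    Pool.Agent.Helper49.QP.fib_ne h2 hG hW c q hc hq e he hQ
  fib_zero hG _ _ _ _ hW c q hc hq := Pool.Agent.Helper49.QP.fib_zero hG hW c q hc hq
  desc c q v hv h h' := Pool.Agent.Helper79.QP.desc c q v hv h h'

/-- **Cyclic covers of the plane branched along a quartic curve and a double conic.** -/
theorem quartic_pencils {p : ℕ} (hp : p.Prime) (hp2 : p ≠ 2)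
    {P : ∀ (A : Type) [CommRing A], Prop} (hP : StableClass p P) {k : Type} [Field k] [Finite k]
    [CharP k p] (f g : MvPolynomial (Fin 2) k) (hf : f.totalDegree ≤ 4) (hg : g.totalDegree ≤ 2)
    (n : ℕ) (hn : 0 < n) : P (Gen (MvPolynomial (Fin 2) k) n (g ^ 2) f) :=
  pencils blocks hp hp2 hP f g hf hg n hn

end Pool.Agent.Helper9.QP
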