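import Pool.Agent.Helper29.CQ.Main

/-!
# Pencils of plane quartics which contain a double conic: definitions
-/

set_option autoImplicit false

namespace Pool.Agent.Helper9.QP

open Pool.Agent.Helper29.CQ Pool.Agent.Helper65.CC Pool.Agent.Helper87.CC
  Pool.Agent.Helper65.CC.KFn
open Polynomial

variable {K : Type} [Field K] {G : ∀ (R : Type) [CommRing R] [Algebra K R], Prop}

/-- affine four-space -/
def A4 (K : Type) [Field K] : KFn K where
  obj R _ _ := R × R × R × R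
  map f x := (f x.1, f x.2.1, f x.2.2.1, f x.2.2.2)
  id_map _ := rfl
  comp_map _ _ _ := rfl

/-- the line over the space -/
def isoA4 : Iso (A3 K).line (A4 K) where
  hom x := (x.1.1, x.1.2.1, x.1.2.2, x.2)
  inv y := ((y.1, y.2.1, y.2.2.1), y.2.2.2)
  inv_hom _ := rfl
  hom_inv _ := rfl
  nat _ _ := rfl

instance : Rp (A4 K) := Rp.iso isoA4

theorem mem_A4 (hG : GOps K G) : (A4 K).Mem G :=
  Mem.of_iso isoA4.symm (Mem.line hG.toKOps (mem_A3 hG))

/-- the affine cone `u ^ 2 = F(x, y, z)` over the double plane branched along a quartic curve -/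
def CV (c : ℕ → ℕ → K) : KFn K :=
  (A4 K).cls ⟨fun x => x.2.2.2 ^ 2 - F4 c x.1 x.2.1 x.2.2.1, fun f x => by
    rw [map_sub, map_pow, F4_map]
    rfl⟩

instance (c : ℕ → ℕ → K) : Rp (CV c) := by
  unfold CV
  infer_instance

/-- the quartic form is invariant under the translations with the direction `v` -/
def Inv (c : ℕ → ℕ → K) (v : Fin 3 → K) : Prop :=
  ∀ (R : Type) [CommRing R] [Algebra K R] (x y z t : R),
    F4 c (x + t * algebraMap K R (v 0)) (y + t * algebraMap K R (v 1))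
      (z + t * algebraMap K R (v 2)) = F4 c x y z

/-- the quadratic form is invariant under the translations with the direction `v` -/
def InvQ (q : Fin 6 → K) (v : Fin 3 → K) : Prop :=
  ∀ (R : Type) [CommRing R] [Algebra K R] (x y z t : R),
    qf q (x + t * algebraMap K R (v 0)) (y + t * algebraMap K R (v 1))
      (z + t * algebraMap K R (v 2)) = qf q x y z

/-- the coefficients of the square of a quadratic form -/
def sqc (q : Fin 6 → K) : ℕ → ℕ → K
  | 4, 0 => q 0 ^ 2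
  | 3, 1 => 2 * q 0 * q 1
  | 2, 2 => q 1 ^ 2 + 2 * q 0 * q 2
  | 1, 3 => 2 * q 1 * q 2
  | 0, 4 => q 2 ^ 2
  | 3, 0 => 2 * q 0 * q 3
  | 2, 1 => 2 * q 0 * q 4 + 2 * q 1 * q 3
  | 1, 2 => 2 * q 1 * q 4 + 2 * q 2 * q 3
  | 0, 3 => 2 * q 2 * q 4
  | 2, 0 => q 3 ^ 2 + 2 * q 0 * q 5
  | 1, 1 => 2 * q 3 * q 4 + 2 * q 1 * q 5
  | 0, 2 => q 4 ^ 2 + 2 * q 2 * q 5
  | 1, 0 => 2 * q 3 * q 5
  | 0, 1 => 2 * q 4 * q 5
  | 0, 0 => q 5 ^ 2
  | _, _ => 0

theorem F4_sqc (q : Fin 6 → K) {R : Type} [CommRing R] [Algebra K R] (x y z : R) :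
    F4 (sqc q) x y z = qf q x y z ^ 2 := by
  simp only [F4, sqc, qf, map_add, map_mul, map_pow, map_ofNat]
  ring

/-- the coefficients of `G ^ 2 - 4 e F` -/
def Qc (c : ℕ → ℕ → K) (q : Fin 6 → K) (e : K) : ℕ → ℕ → K := fun i j =>
  sqc q i j - 4 * e * c i j

theorem F4_Qc (c : ℕ → ℕ → K) (q : Fin 6 → K) (e : K) {R : Type} [CommRing R] [Algebra K R]
    (x y z : R) : F4 (Qc c q e) x y z =
      qf q x y z ^ 2 - 4 * algebraMap K R e * F4 c x y z := by
  rw [← F4_sqc]
  simp only [F4, Qc, map_sub, map_mul, map_ofNat]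
  ring

/-- the fibre `e F(x, y, z) = G(x, y, z) ^ 2 v (1 - v)`, `F` and `G` invertible -/
def Fib (c : ℕ → ℕ → K) (q : Fin 6 → K) (e : K) : KFn K :=
  (((A4 K).cls ⟨fun {R} _ _ x => algebraMap K R e * F4 c x.1 x.2.1 x.2.2.1 -
      qf q x.1 x.2.1 x.2.2.1 ^ 2 * (x.2.2.2 * (1 - x.2.2.2)), fun f x => by
    rw [map_sub, map_mul, map_mul, map_mul, map_pow, F4_map, qf_map, map_sub, map_one,
      AlgHom.commutes]
    rfl⟩).opn ⟨fun {R} _ _ x => F4 c x.1.1 x.1.2.1 x.1.2.2.1, fun f x => by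
    rw [F4_map]
    rfl⟩).opn ⟨fun {R} _ _ x => qf q x.1.1.1 x.1.1.2.1 x.1.1.2.2.1, fun f x => by
    rw [qf_map]
    rfl⟩

instance (c : ℕ → ℕ → K) (q : Fin 6 → K) (e : K) : Rp (Fib c q e) := by
  unfold Fib
  infer_instance

/-- constant curves: `W ⊗ K` belongs to the class if `W` is a finitely generated `k`-algebra of
dimension at most one -/
def Cst (k : Type) [Field k] [Algebra k K]
    (G : ∀ (R : Type) [CommRing R] [Algebra K R], Prop) : Prop :=
  ∀ (W : Type) [CommRing W] [Algebra k W], Algebra.FiniteType ℤ W → ringKrullDim W ≤ 1 →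
    G (TensorProduct k K W)

/-- the value of the quadratic form on the cone -/
def CV.q (c : ℕ → ℕ → K) (q : Fin 6 → K) : Coord (CV c) where
  val x := qf q x.1.1 x.1.2.1 x.1.2.2.1
  nat f x := by
    rw [qf_map]
    rfl

/-! Statements to be proved (blocks).

(C1) helper71 `cone_mem`: if no direction is invariant then the cone is in the class.
theorem cone_mem [IsAlgClosed K] (h2 : (2 : K) ≠ 0) (hG : GOps K G) (c : ℕ → ℕ → K)
    (h : ∀ v : Fin 3 → K, v ≠ 0 → ¬ Inv c v) : (CV c).Mem G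

(C2) helper71 `cone_tr`: an invariant direction, transfer from the double cover of a conic.
theorem cone_tr [IsAlgClosed K] (h2 : (2 : K) ≠ 0) (hG : GOps K G) (c : ℕ → ℕ → K)
    (q : Fin 6 → K) (v : Fin 3 → K) (hv : v ≠ 0) (h : Inv c v) (hq : ¬ InvQ q v)
    (hD : ((CV c).cls (CV.q c q)).Mem G) : (CV c).Mem G

(D1a) helper49 `cone_conic`: the double cover of the conic `G = 0`.
theorem cone_conic [IsAlgClosed K] (hG : GOps K G) {k : Type} [Field k] [Finite k]
    [Algebra k K] (hW : Cst k G) (c : ℕ → ℕ → k) (q : Fin 6 → k) (hq : q ≠ 0) (e : K)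
    (h4 : 4 * e ≠ 0) :
    ((CV (Qc (fun i j => algebraMap k K (c i j)) (fun i => algebraMap k K (q i)) e)).cls
      (CV.q _ (fun i => algebraMap k K (q i)))).Mem G

(D1) helper49 `fib_ne`: the fibre over a point `e ≠ 0`.
theorem fib_ne [IsAlgClosed K] (h2 : (2 : K) ≠ 0) (hG : GOps K G) {k : Type} [Field k] [Finite k]
    [Algebra k K] (hW : Cst k G) (c : ℕ → ℕ → k) (q : Fin 6 → k)
    (hc : ∃ i j, i + j ≤ 4 ∧ c i j ≠ 0) (hq : q ≠ 0) (e : K) (he : e ≠ 0)
    (hQ : (CV (Qc (fun i j => algebraMap k K (c i j)) (fun i => algebraMap k K (q i)) e)).Mem G) :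
    (Fib (fun i j => algebraMap k K (c i j)) (fun i => algebraMap k K (q i)) e).Mem G

(D0) helper49 `fib_zero`: the fibre over zero.
theorem fib_zero [IsAlgClosed K] (hG : GOps K G) {k : Type} [Field k] [Finite k]
    [Algebra k K] (hW : Cst k G) (c : ℕ → ℕ → k) (q : Fin 6 → k)
    (hc : ∃ i j, i + j ≤ 4 ∧ c i j ≠ 0) (hq : q ≠ 0) :
    (Fib (fun i j => algebraMap k K (c i j)) (fun i => algebraMap k K (q i)) 0).Mem G

(E') helper79 `desc`: common invariant directions are defined over `k`.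
theorem desc {k K : Type} [Field k] [Finite k] [Field K] [Algebra k K] (c : ℕ → ℕ → k)
    (q : Fin 6 → k) (v : Fin 3 → K) (hv : v ≠ 0)
    (h : Inv (fun i j => algebraMap k K (c i j)) v)
    (h' : InvQ (fun i => algebraMap k K (q i)) v) :
    ∃ u : Fin 3 → k, u ≠ 0 ∧ Inv c u ∧ InvQ q u
-/

end Pool.Agent.Helper9.QP
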