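import Pool.Agent.Helper67.CQ.Z2
import Pool.Agent.Helper62.TS.Dim

/-!
# Kummer extensions: cut and paste on the base
-/

set_option autoImplicit false

namespace Pool.Agent.Helper9.QP

open Polynomial
open Pool.Agent.Helper87.CC (IsLC isLC_std ft_of_surj ft_of_hom ft_loc ft_alg)
open Pool.Agent.Helper29.CQ (FormalClass)
open Pool.Agent.Helper67.CQ

variable {p : ℕ} {P : ∀ (A : Type) [CommRing A], Prop}

/-! ### Locally closed subschemes -/

/-- composition of a locally closed immersion and a closed or open one -/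
theorem lc_comp {A X Y : Type} [CommRing A] [CommRing X] [CommRing Y] {j : A →+* X} {I J : Ideal A}
    {a b : A} (h : IsLC j I a) {r : X →+* Y} (hr : IsLC r (J.map j) (j b)) :
    IsLC (r.comp j) (I ⊔ J) (a * b) where
  zero := by
    have h2 : I ⊔ J ≤ RingHom.ker (r.comp j) := by
      rw [sup_le_iff]
      refine ⟨fun x hx => ?_, fun x hx => ?_⟩
      · rw [RingHom.mem_ker, RingHom.comp_apply, h.zero x hx, map_zero]
      · rw [RingHom.mem_ker, RingHom.comp_apply, hr.zero _ (Ideal.mem_map_of_mem j hx)]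
    exact fun x hx => h2 hx
  unit := by
    rw [map_mul]
    refine IsUnit.mul ?_ hr.unit
    exact h.unit.map r
  ex E _ v hv hu := by
    rw [map_mul] at hu
    obtain ⟨g, hg⟩ := h.ex E v (fun x hx => hv x (Ideal.mem_sup_left hx))
      (isUnit_of_mul_isUnit_left hu)
    have h1 : J.map j ≤ RingHom.ker g := by
      rw [Ideal.map_le_iff_le_comap]
      intro x hx
      rw [Ideal.mem_comap, RingHom.mem_ker, ← RingHom.comp_apply, hg]
      exact hv x (Ideal.mem_sup_right hx)
    obtain ⟨g', hg'⟩ := hr.ex E g (fun x hx => h1 hx) (by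
      rw [← RingHom.comp_apply, hg]
      exact isUnit_of_mul_isUnit_right hu)
    exact ⟨g', by rw [← RingHom.comp_assoc, hg', hg]⟩
  uniq E _ g g' hh := by
    apply hr.uniq
    apply h.uniq
    rw [RingHom.comp_assoc, RingHom.comp_assoc]
    exact hh

theorem map_span {A X : Type} [CommRing A] [CommRing X] (j : A →+* X) (f : A) :
    (Ideal.span {f}).map j = Ideal.span {j f} := by
  rw [Ideal.map_span, Set.image_singleton]

/-- the closed part -/
theorem lc_quot {A X : Type} [CommRing A] [CommRing X] {j : A →+* X} {I : Ideal A} {a : A}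
    (h : IsLC j I a) (f : A) :
    IsLC ((Ideal.Quotient.mk (Ideal.span {j f})).comp j) (I ⊔ Ideal.span {f}) a := by
  have h1 := lc_comp (J := Ideal.span {f}) (b := 1) h
    (r := Ideal.Quotient.mk (Ideal.span {j f})) (by
      rw [map_span, map_one]
      exact isLC_quot (j f))
  rwa [mul_one] at h1

/-- the open part -/
theorem lc_away {A X : Type} [CommRing A] [CommRing X] {j : A →+* X} {I : Ideal A} {a : A}
    (h : IsLC j I a) (f : A) :
    IsLC ((algebraMap X (Localization.Away (j f))).comp j) I (a * f) := by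
  have h1 := lc_comp (J := ⊥) (b := f) h (r := algebraMap X (Localization.Away (j f))) (by
      rw [Ideal.map_bot]
      exact isLC_away (j f))
  rwa [sup_bot_eq] at h1

/-! ### Kummer extensions -/

/-- base change of a Kummer extension to a locally closed subscheme -/
theorem kum_lc {R B R' B' : Type} [CommRing R] [CommRing B] [CommRing R'] [CommRing B']
    {i : R →+* B} {w : B} {n : ℕ} {a b c : R} (hB : IsKum i w n a) {φ : R →+* R'}
    (hφ : IsLC φ (Ideal.span {b}) c) {i' : R' →+* B'} {w' : B'} (hB' : IsKum i' w' n (φ a)) :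
    ∃ r : B →+* B', IsLC r (Ideal.span {i b}) (i c) := by
  obtain ⟨r, r1, r2⟩ := hB.ex B' (i'.comp φ) w' hB'.rel
  refine ⟨r, ?_, ?_, ?_, ?_⟩
  · intro x hx
    obtain ⟨t, rfl⟩ := Ideal.mem_span_singleton'.1 hx
    have h1 : r (i b) = 0 := by
      have := RingHom.congr_fun r1 b
      rw [RingHom.comp_apply] at this
      rw [this, RingHom.comp_apply, hφ.zero b (Ideal.mem_span_singleton_self b), map_zero]
    rw [map_mul, h1, mul_zero]
  · have := RingHom.congr_fun r1 c
    rw [RingHom.comp_apply] at this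
    rw [this]
    exact hφ.unit.map i'
  · intro E _ u hu hu'
    obtain ⟨g, hg⟩ := hφ.ex E (u.comp i) (fun x hx => by
      obtain ⟨t, rfl⟩ := Ideal.mem_span_singleton'.1 hx
      rw [RingHom.comp_apply, map_mul, map_mul, hu (i b) (Ideal.mem_span_singleton_self _),
        mul_zero]) hu'
    have h2 : u w ^ n = g (φ a) := by
      rw [← RingHom.comp_apply, hg, RingHom.comp_apply, ← map_pow, hB.rel]
    obtain ⟨h, hh1, hh2⟩ := hB'.ex E g (u w) h2
    refine ⟨h, hB.uniq E _ _ ?_ ?_⟩
    · rw [RingHom.comp_assoc, r1, ← RingHom.comp_assoc, hh1, hg]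
    · rw [RingHom.comp_apply, r2, hh2]
  · intro E _ h h' hh
    refine hB'.uniq E _ _ ?_ ?_
    · apply hφ.uniq
      rw [RingHom.comp_assoc, ← r1, ← RingHom.comp_assoc, hh, RingHom.comp_assoc, r1,
        ← RingHom.comp_assoc]
    · rw [← r2]
      exact RingHom.congr_fun hh w

/-- the Kummer extension with the parameter `a` is in the class -/
abbrev PK (P : ∀ (A : Type) [CommRing A], Prop) (n : ℕ) {R : Type} [CommRing R] (a : R) : Prop :=
  P (AdjoinRoot (X ^ n - C a : R[X]))

theorem pk_glue (hP : FormalClass p P) {n : ℕ} {R : Type} [CommRing R]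
    (hft : Algebra.FiniteType ℤ R) (hp : (p : R) = 0) (a f : R)
    (h0 : PK P n (Ideal.Quotient.mk (Ideal.span {f}) a))
    (h1 : PK P n (algebraMap R (Localization.Away f) a)) : PK P n a := by
  have hK := isKum_std n a
  obtain ⟨q, hq⟩ := kum_lc hK (isLC_quot f) (isKum_std n (Ideal.Quotient.mk (Ideal.span {f}) a))
  obtain ⟨r, hr⟩ := kum_lc (b := 0) (c := f) hK (by
    rw [Set.singleton_zero, Ideal.span_zero]
    exact isLC_away f) (isKum_std n (algebraMap R (Localization.Away f) a))
  rw [map_zero, Set.singleton_zero, Ideal.span_zero] at hr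
  rw [map_one] at hq
  exact glue' hP _ (hK.ft hft) (hK.char hp) hq hr h0 h1

theorem pk_open (hP : FormalClass p P) {n : ℕ} {R : Type} [CommRing R] (a f : R)
    (h0 : PK P n (Ideal.Quotient.mk (Ideal.span {f}) a)) (h1 : PK P n a) :
    PK P n (algebraMap R (Localization.Away f) a) := by
  have hK := isKum_std n a
  obtain ⟨q, hq⟩ := kum_lc hK (isLC_quot f) (isKum_std n (Ideal.Quotient.mk (Ideal.span {f}) a))
  obtain ⟨r, hr⟩ := kum_lc (b := 0) (c := f) hK (by
    rw [Set.singleton_zero, Ideal.span_zero]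
    exact isLC_away f) (isKum_std n (algebraMap R (Localization.Away f) a))
  rw [map_zero, Set.singleton_zero, Ideal.span_zero] at hr
  rw [map_one] at hq
  exact opn' hP _ hq hr h1 h0

theorem pk_iso (hP : FormalClass p P) {n : ℕ} {R R' : Type} [CommRing R] [CommRing R']
    (e : R ≃+* R') (a : R) (h : PK P n a) : PK P n (e a) := by
  obtain ⟨e1⟩ := (isKum_std n a).equiv e (isKum_std n (e a))
  exact hP.iso _ _ e1 h

/-- bases of dimension at most one -/
theorem pk_curve (hP : FormalClass p P) {n : ℕ} (hn : n ≠ 0) {R : Type} [CommRing R]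
    (hft : Algebra.FiniteType ℤ R) (hp : (p : R) = 0) (hd : ringKrullDim R ≤ 1) (a : R) :
    PK P n a := by
  have hm : (X ^ n - C a : R[X]).Monic := monic_X_pow_sub_C a hn
  have h1 : Module.Finite R (AdjoinRoot (X ^ n - C a : R[X])) := hm.finite_adjoinRoot
  have h2 : Algebra.IsIntegral R (AdjoinRoot (X ^ n - C a : R[X])) :=
    Algebra.IsIntegral.of_finite _ _
  have hK := isKum_std n a
  exact hP.curve _ (hK.ft hft) (hK.char hp)
    ((Pool.Agent.Helper62.TS.dim_integral_le (R := R)).trans hd)

theorem pk_poly (hP : FormalClass p P) {n : ℕ} {R : Type} [CommRing R] (a : R) (h : PK P n a) :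
    PK P n (C a : R[X]) := by
  obtain ⟨e1⟩ := (isKum_poly (isKum_std n a)).equiv (RingEquiv.refl R[X])
    (isKum_std n ((RingEquiv.refl R[X]) (C a)))
  exact hP.iso _ _ e1 (hP.poly _ h)

/-- the torus `R[X, 1/X]` -/
abbrev Lau (R : Type) [CommRing R] : Type := Localization.Away (X : R[X])

/-- constants -/
noncomputable abbrev cL {R : Type} [CommRing R] : R →+* Lau R := (algebraMap R[X] (Lau R)).comp C

theorem isLC_X {R : Type} [CommRing R] : IsLC (evalRingHom (0 : R)) (Ideal.span {(X : R[X])}) 1 where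
  zero b hb := by
    obtain ⟨c, rfl⟩ := Ideal.mem_span_singleton'.1 hb
    simp
  unit := by rw [map_one]; exact isUnit_one
  ex E _ v hv _ := by
    refine ⟨v.comp C, ?_⟩
    refine Polynomial.ringHom_ext ?_ ?_
    · intro a
      simp
    · have := hv X (Ideal.mem_span_singleton_self _)
      rw [this]
      simp
  uniq E _ h h' hh := by
    ext a
    have := RingHom.congr_fun hh (C a)
    simpa using this

theorem pk_lau (hP : FormalClass p P) {n : ℕ} {R : Type} [CommRing R] (a : R) (h : PK P n a) :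
    PK P n (cL a) := by
  have h1 := pk_poly hP a h
  refine pk_open hP (C a) X ?_ h1
  obtain ⟨e⟩ := (isLC_X (R := R)).equiv (isLC_quot (X : R[X]))
  obtain ⟨e0, he⟩ : ∃ e : R ≃+* (R[X] ⧸ Ideal.span {(X : R[X])}),
      e a = Ideal.Quotient.mk (Ideal.span {(X : R[X])}) (C a) := by
    obtain ⟨f, hf⟩ := (isLC_X (R := R)).ex _ (Ideal.Quotient.mk (Ideal.span {(X : R[X])}))
      (isLC_quot X).zero (isLC_quot X).unit
    obtain ⟨g, hg⟩ := (isLC_quot (X : R[X])).ex _ (evalRingHom (0 : R)) (isLC_X).zero (isLC_X).unit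
    refine ⟨RingEquiv.ofRingHom f g ?_ ?_, ?_⟩
    · apply (isLC_quot (X : R[X])).uniq
      rw [RingHom.comp_assoc, hg, hf, RingHom.id_comp]
    · apply (isLC_X (R := R)).uniq
      rw [RingHom.comp_assoc, hf, hg, RingHom.id_comp]
    · change f a = _
      have := RingHom.congr_fun hf (C a)
      simpa using this
  rw [← he]
  exact pk_iso hP e0 a h

/-! ### Dimensions -/

theorem dim_away {R : Type} [CommRing R] (f : R) (h : ringKrullDim R ≤ 1) :
    ringKrullDim (Localization.Away f) ≤ 1 :=
  (Pool.Agent.Helper62.TS.dim_away_le f).trans h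

end Pool.Agent.Helper9.QP
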