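import Pool.Agent.Helper9.QP.Arith

/-!
# Forms in two linear forms
-/

set_option autoImplicit false

namespace Pool.Agent.Helper9.QP

open Polynomial
open Pool.Agent.Helper87.CC (IsLC isLC_std ft_of_surj ft_of_hom ft_loc ft_alg)
open Pool.Agent.Helper29.CQ (FormalClass)
open Pool.Agent.Helper67.CQ
open Pool.Agent.Helper29.CQ (bin4 bin4_map lead F4 qf F4_map qf_map)

variable {p : ℕ} {P : ∀ (A : Type) [CommRing A], Prop} {k : Type} [Field k]

theorem lc_poly {S T : Type} [CommRing S] [CommRing T] {j : S →+* T} {u : S} (h : IsLC j ⊥ u) :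
    IsLC (mapRingHom j) ⊥ (C u) where
  zero b hb := by rw [Ideal.mem_bot.1 hb, map_zero]
  unit := by
    rw [coe_mapRingHom, map_C]
    exact h.unit.map C
  ex E _ v _ hv := by
    obtain ⟨g, hg⟩ := h.ex E (v.comp C) (fun b hb => by rw [Ideal.mem_bot.1 hb, map_zero]) hv
    refine ⟨eval₂RingHom g (v X), ?_⟩
    refine Polynomial.ringHom_ext' ?_ ?_
    · refine RingHom.ext fun x => ?_
      have h1 := RingHom.congr_fun hg x
      simpa using h1
    · simp
  uniq E _ g g' hh := by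
    refine Polynomial.ringHom_ext' ?_ ?_
    · apply h.uniq
      refine RingHom.ext fun x => ?_
      have h1 := RingHom.congr_fun hh (C x)
      simpa using h1
    · have h1 := RingHom.congr_fun hh X
      simpa using h1

theorem qk_poly (hP : FormalClass p P) {n : ℕ} {S : Type} [CommRing S] {F G u : S} (hGu : G ∣ u)
    (h : QK P n F G ⊥ u) : QK P n (C F) (C G) ⊥ (C u) := by
  obtain ⟨T, hT, j, hj⟩ : ∃ (T : Type) (_ : CommRing T) (j : S →+* T), IsLC j ⊥ u :=
    ⟨_, _, _, isLC_std ⊥ u⟩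
  have hG : IsUnit (j G) := isUnit_of_dvd_unit (map_dvd j hGu) hj.unit
  obtain ⟨a, ha⟩ := ex_a j F G hG
  refine qk_model hP (lc_poly hj) (a := C a) ?_ (pk_poly hP a (h T j a hj hG ha))
  rw [coe_mapRingHom, map_C, map_C, ← ha, C_mul, C_pow]

theorem qk_equiv {n : ℕ} {S S' : Type} [CommRing S] [CommRing S'] (e : S ≃+* S') {F G u : S}
    (h : QK P n (e F) (e G) ⊥ (e u)) : QK P n F G ⊥ u := by
  intro T _ j a hj hG ha
  have h1 : ∀ x, (j.comp (e.symm : S' →+* S)) (e x) = j x := fun x => by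
    change j (e.symm (e x)) = j x
    rw [e.symm_apply_apply]
  refine h T (j.comp (e.symm : S' →+* S)) a ⟨?_, ?_, ?_, ?_⟩ ?_ ?_
  · intro b hb
    rw [Ideal.mem_bot.1 hb, map_zero]
  · rw [h1]
    exact hj.unit
  · intro E _ v _ hv
    obtain ⟨g, hg⟩ := hj.ex E (v.comp (e : S →+* S')) (fun b hb => by
      rw [Ideal.mem_bot.1 hb, map_zero]) hv
    refine ⟨g, RingHom.ext fun x => ?_⟩
    have h2 := RingHom.congr_fun hg (e.symm x)
    change g (j (e.symm x)) = v (e (e.symm x)) at h2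
    rw [e.apply_symm_apply] at h2
    exact h2
  · intro E _ g g' hh
    apply hj.uniq
    refine RingHom.ext fun x => ?_
    have h2 := RingHom.congr_fun hh (e x)
    change g (j (e.symm (e x))) = g' (j (e.symm (e x))) at h2
    rw [e.symm_apply_apply] at h2
    exact h2
  · rw [h1]
    exact hG
  · rw [h1, h1]
    exact ha

section

variable (u : Fin 3 → k) (i : Fin 3) (m : Fin 2 → Fin 3) (Y : Fin 3 → MvPolynomial (Fin 2) k)

/-- the coordinates `y_l + u_l t` -/
noncomputable def sg : MvPolynomial (Fin 3) k →ₐ[k] (MvPolynomial (Fin 2) k)[X] :=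
  MvPolynomial.aeval fun l => C (Y l) + C (MvPolynomial.C (u l)) * X

/-- the inverse -/
noncomputable def tu : (MvPolynomial (Fin 2) k)[X] →+* MvPolynomial (Fin 3) k :=
  eval₂RingHom (MvPolynomial.aeval (fun s => MvPolynomial.X (m s) -
    MvPolynomial.C (u (m s) / u i) * MvPolynomial.X i) :
      MvPolynomial (Fin 2) k →ₐ[k] MvPolynomial (Fin 3) k).toRingHom
    (MvPolynomial.C (u i)⁻¹ * MvPolynomial.X i)

theorem sg_X (l : Fin 3) : sg u Y (MvPolynomial.X l) =
    C (Y l) + C (MvPolynomial.C (u l)) * X := by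
  simp [sg]

theorem sg_C (d : k) : sg u Y (MvPolynomial.C d) = C (MvPolynomial.C d) := by
  change sg u Y (algebraMap k _ d) = _
  rw [AlgHom.commutes]
  rfl

theorem tu_X : tu u i m X = MvPolynomial.C (u i)⁻¹ * MvPolynomial.X i := by
  simp [tu]

theorem tu_C (a : MvPolynomial (Fin 2) k) : tu u i m (C a) =
    MvPolynomial.aeval (fun s => MvPolynomial.X (m s) -
      MvPolynomial.C (u (m s) / u i) * MvPolynomial.X i) a := by
  simp [tu]

theorem tu_CC (d : k) : tu u i m (C (MvPolynomial.C d)) = MvPolynomial.C d := by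
  rw [tu_C, MvPolynomial.aeval_C]
  rfl

theorem tu_CX (s : Fin 2) : tu u i m (C (MvPolynomial.X s)) = MvPolynomial.X (m s) -
    MvPolynomial.C (u (m s) / u i) * MvPolynomial.X i := by
  rw [tu_C, MvPolynomial.aeval_X]

variable (hu : u i ≠ 0) (hY : Y i = 0) (hm : ∀ s, Y (m s) = MvPolynomial.X s)
  (hall : ∀ l, l = i ∨ ∃ s, l = m s)

include hu hY hm hall in
theorem ex_equiv : ∃ e : MvPolynomial (Fin 3) k ≃+* (MvPolynomial (Fin 2) k)[X],
    ∀ x, e x = sg u Y x := by
  refine ⟨RingEquiv.ofRingHom (sg u Y).toRingHom (tu u i m) ?_ ?_, fun x => rfl⟩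
  · refine Polynomial.ringHom_ext' ?_ ?_
    · apply MvPolynomial.ringHom_ext
      · intro d
        change sg u Y (tu u i m (C (MvPolynomial.C d))) = C (MvPolynomial.C d)
        rw [tu_CC, sg_C]
      · intro s
        change sg u Y (tu u i m (C (MvPolynomial.X s))) = C (MvPolynomial.X s)
        rw [tu_CX, map_sub, map_mul, sg_X, sg_C, sg_X, hY, hm, map_zero, zero_add]
        have h1 : (C (MvPolynomial.C (u (m s) / u i)) : (MvPolynomial (Fin 2) k)[X]) *
            (C (MvPolynomial.C (u i)) * X) = C (MvPolynomial.C (u (m s))) * X := by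
          rw [← mul_assoc, ← C_mul, ← MvPolynomial.C_mul, div_mul_cancel₀ _ hu]
        rw [h1, add_sub_cancel_right]
    · change sg u Y (tu u i m X) = X
      rw [tu_X, map_mul, sg_C, sg_X, hY, map_zero, zero_add, ← mul_assoc, ← C_mul,
        ← MvPolynomial.C_mul, inv_mul_cancel₀ hu, MvPolynomial.C_1, C_1, one_mul]
  · apply MvPolynomial.ringHom_ext
    · intro d
      change tu u i m (sg u Y (MvPolynomial.C d)) = MvPolynomial.C d
      rw [sg_C, tu_CC]
    · intro l
      change tu u i m (sg u Y (MvPolynomial.X l)) = MvPolynomial.X l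
      rw [sg_X, map_add, map_mul, tu_CC, tu_X]
      rcases hall l with rfl | ⟨s, rfl⟩
      · rw [hY, map_zero, map_zero, zero_add, ← mul_assoc, ← MvPolynomial.C_mul,
          mul_inv_cancel₀ hu, MvPolynomial.C_1, one_mul]
      · rw [hm, tu_CX, ← mul_assoc, ← MvPolynomial.C_mul, ← div_eq_mul_inv, sub_add_cancel]

theorem sg_F (c : ℕ → ℕ → k) (hc : Inv c u) : sg u Y (F3 c) = C (F4 c (Y 0) (Y 1) (Y 2)) := by
  rw [F4_map, sg_X, sg_X, sg_X]
  have h1 := hc (MvPolynomial (Fin 2) k)[X] (C (Y 0)) (C (Y 1)) (C (Y 2)) X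
  have h2 : ∀ l, C (MvPolynomial.C (u l)) * X =
      X * algebraMap k (MvPolynomial (Fin 2) k)[X] (u l) := fun l => mul_comm _ _
  rw [h2, h2, h2, h1]
  exact (F4_map c (IsScalarTower.toAlgHom k (MvPolynomial (Fin 2) k) (MvPolynomial (Fin 2) k)[X])
    _ _ _).symm

theorem sg_G (q : Fin 6 → k) (hq : InvQ q u) : sg u Y (G3 q) = C (qf q (Y 0) (Y 1) (Y 2)) := by
  rw [qf_map, sg_X, sg_X, sg_X]
  have h1 := hq (MvPolynomial (Fin 2) k)[X] (C (Y 0)) (C (Y 1)) (C (Y 2)) X
  have h2 : ∀ l, C (MvPolynomial.C (u l)) * X =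
      X * algebraMap k (MvPolynomial (Fin 2) k)[X] (u l) := fun l => mul_comm _ _
  rw [h2, h2, h2, h1]
  exact (qf_map q (IsScalarTower.toAlgHom k (MvPolynomial (Fin 2) k) (MvPolynomial (Fin 2) k)[X])
    _ _ _).symm

include hu hY hm hall in
theorem prod_step [Finite k] (hP : FormalClass p P) (hk : (p : k) = 0) {n : ℕ} (hn : n ≠ 0)
    (c : ℕ → ℕ → k) (q : Fin 6 → k) (hc : Inv c u) (hq : InvQ q u) (a : Fin 5 → k)
    (b : Fin 3 → k)
    (ha : F4 c (Y 0) (Y 1) (Y 2) = bin4 a (MvPolynomial.X 0) (MvPolynomial.X 1))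
    (hb : qf q (Y 0) (Y 1) (Y 2) = bq b (MvPolynomial.X 0) (MvPolynomial.X 1)) :
    QK P n (F3 c) (G3 q) ⊥ (F3 c * G3 q) := by
  obtain ⟨e, he⟩ := ex_equiv u i m Y hu hY hm hall
  apply qk_equiv e
  rw [map_mul, he, he, sg_F u Y c hc, sg_G u Y q hq, ha, hb, ← C_mul]
  exact qk_poly hP (Dvd.intro_left _ rfl) (qk_bin hP hk hn a b)

end

/-- **the product case** -/
theorem qk_prod [Finite k] (hP : FormalClass p P) (hk : (p : k) = 0) {n : ℕ} (hn : n ≠ 0)
    (c : ℕ → ℕ → k) (q : Fin 6 → k) (u : Fin 3 → k) (hu : u ≠ 0) (hc : Inv c u)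
    (hq : InvQ q u) : QK P n (F3 c) (G3 q) ⊥ (F3 c * G3 q) := by
  obtain ⟨i, hi⟩ := Function.ne_iff.1 hu
  have hi : u i ≠ 0 := hi
  fin_cases i
  · refine prod_step u 0 ![1, 2] ![0, MvPolynomial.X 0, MvPolynomial.X 1] hi rfl ?_ ?_ hP hk hn c
      q hc hq (fun j => c 0 j) ![q 2, q 4, q 5] ?_ ?_
    · intro s
      fin_cases s <;> rfl
    · intro l
      fin_cases l
      · exact Or.inl rfl
      · exact Or.inr ⟨0, rfl⟩
      · exact Or.inr ⟨1, rfl⟩
    · simp [F4, bin4]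
      ring
    · simp [qf, bq]
  · refine prod_step u 1 ![0, 2] ![MvPolynomial.X 0, 0, MvPolynomial.X 1] hi rfl ?_ ?_ hP hk hn c
      q hc hq (fun j => c j 0) ![q 0, q 3, q 5] ?_ ?_
    · intro s
      fin_cases s <;> rfl
    · intro l
      fin_cases l
      · exact Or.inr ⟨0, rfl⟩
      · exact Or.inl rfl
      · exact Or.inr ⟨1, rfl⟩
    · simp [F4, bin4]
      ring
    · simp [qf, bq]
  · refine prod_step u 2 ![0, 1] ![MvPolynomial.X 0, MvPolynomial.X 1, 0] hi rfl ?_ ?_ hP hk hn c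
      q hc hq (fun j => c j (4 - j)) ![q 0, q 1, q 2] ?_ ?_
    · intro s
      fin_cases s <;> rfl
    · intro l
      fin_cases l
      · exact Or.inr ⟨0, rfl⟩
      · exact Or.inr ⟨1, rfl⟩
      · exact Or.inl rfl
    · simp [F4, bin4]
      ring
    · simp [qf, bq]

end Pool.Agent.Helper9.QP
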