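import Pool.Agent.Helper9.QP.Fibre
import Pool.Agent.Helper9.QP.Prod
import Pool.Agent.Helper29.PF.Stable

/-!
# Cyclic covers of the plane branched along a quartic curve and a double conic
-/

set_option autoImplicit false

namespace Pool.Agent.Helper9.QP

open Polynomial
open Pool.Agent.Helper87.CC (IsLC isLC_std ft_of_surj ft_of_hom ft_loc ft_alg)
open Pool.Agent.Helper29.CQ (FormalClass)
open Pool.Agent.Helper67.CQ
open Pool.Agent.Helper29.CQ (bin4 bin4_map lead F4 qf F4_map qf_map)
open Pool.Agent.Helper29.PF (StableClass)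

variable {p : ℕ} {P : ∀ (A : Type) [CommRing A], Prop} {k : Type} [Field k]

/-! ### The torus rule -/

/-- the torus is a double cover of the line: `t = x + 1/x` -/
theorem torus_rule (hP : StableClass p P) (A : Type) [CommRing A] (hA : Algebra.FiniteType ℤ A)
    (h : P (Lau A)) : P A := by
  rcases subsingleton_or_nontrivial A with h0 | h0
  · exact p_zero hP.toFormalClass h0
  apply hP.line
  set g : A[X][X] := X ^ 2 - C X * X + 1 with hg
  have hm : g.Monic := by
    rw [hg]
    monicity!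
  have hd : g.natDegree = 2 := by
    rw [hg]
    compute_degree!
  have := hm.free_adjoinRoot
  have := hm.finite_adjoinRoot
  have hnt : Nontrivial (AdjoinRoot g) :=
    ⟨⟨AdjoinRoot.powerBasisAux' hm ⟨0, by rw [hd]; exact two_pos⟩, 0,
      (AdjoinRoot.powerBasisAux' hm).ne_zero _⟩⟩
  refine hP.transfer A[X] (AdjoinRoot g) (ft_alg hA inferInstance) ?_
  -- the root is a unit
  have hr : AdjoinRoot.root g ^ 2 - AdjoinRoot.of g X * AdjoinRoot.root g + 1 = 0 := by
    have h1 := AdjoinRoot.eval₂_root g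
    rw [hg] at h1 ⊢
    simpa using h1
  have hrx : AdjoinRoot.root g * (AdjoinRoot.of g X - AdjoinRoot.root g) = 1 := by
    linear_combination -hr
  have hLC : IsLC (eval₂RingHom ((AdjoinRoot.of g).comp C) (AdjoinRoot.root g)) ⊥ (X : A[X]) := by
    refine ⟨?_, ?_, ?_, ?_⟩
    · intro b hb
      rw [Ideal.mem_bot.1 hb, map_zero]
    · rw [coe_eval₂RingHom, eval₂_X]
      exact IsUnit.of_mul_eq_one _ hrx
    · intro E _ v _ hv
      obtain ⟨s, hs⟩ := hv
      have he : eval₂ (eval₂RingHom (v.comp C) (s + (s⁻¹ : Eˣ) : E)) (s : E) g = 0 := by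
        rw [hg, eval₂_add, eval₂_sub, eval₂_mul, eval₂_X_pow, eval₂_C, eval₂_X, eval₂_one,
          coe_eval₂RingHom, eval₂_X]
        have h1 : (s : E) * (s⁻¹ : Eˣ) = 1 := Units.mul_inv s
        linear_combination -h1
      refine ⟨AdjoinRoot.lift (eval₂RingHom (v.comp C) (s + (s⁻¹ : Eˣ) : E)) (s : E) he, ?_⟩
      refine Polynomial.ringHom_ext ?_ ?_
      · intro a
        rw [RingHom.comp_apply, coe_eval₂RingHom, eval₂_C, RingHom.comp_apply, AdjoinRoot.lift_of,
          coe_eval₂RingHom, eval₂_C]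
        rfl
      · rw [RingHom.comp_apply, coe_eval₂RingHom, eval₂_X, AdjoinRoot.lift_root, hs]
    · intro E _ f f' hh
      have e1 : f (AdjoinRoot.root g) = f' (AdjoinRoot.root g) := by
        have h1 := RingHom.congr_fun hh X
        rw [RingHom.comp_apply, RingHom.comp_apply, coe_eval₂RingHom, eval₂_X] at h1
        exact h1
      refine AdjoinRoot.ringHom_ext (Polynomial.ringHom_ext ?_ ?_) e1
      · intro a
        have h1 := RingHom.congr_fun hh (C a)
        rw [RingHom.comp_apply, RingHom.comp_apply, coe_eval₂RingHom, eval₂_C] at h1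
        exact h1
      · rw [RingHom.comp_apply, RingHom.comp_apply]
        have h3 : IsUnit (f (AdjoinRoot.root g)) :=
          (IsUnit.of_mul_eq_one _ hrx).map f
        apply h3.mul_left_cancel
        have h4 := congrArg f hr
        have h5 := congrArg f' hr
        rw [map_add, map_sub, map_mul, map_pow, map_one, map_zero] at h4 h5
        rw [← e1] at h5
        linear_combination h5 - h4
  obtain ⟨e⟩ := (isLC_away (X : A[X])).equiv hLC
  exact hP.iso _ _ e h

/-! ### Coefficients -/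

theorem exists_c (f : MvPolynomial (Fin 2) k) (hf : f.totalDegree ≤ 4) : ∃ c : ℕ → ℕ → k,
    f = F2 c := by
  refine ⟨Pool.Agent.Helper9.CQ.Thr.cf (RingHom.id k) f, ?_⟩
  have h := Pool.Agent.Helper9.CQ.Thr.eval_F4 (RingHom.id k) f hf
    (R := MvPolynomial (Fin 2) k) MvPolynomial.X
  refine Eq.trans ?_ h
  exact (MvPolynomial.eval₂_eta f).symm

theorem exists_q (g : MvPolynomial (Fin 2) k) (hg : g.totalDegree ≤ 2) : ∃ q : Fin 6 → k,
    g = G2 q := by
  classical
  have hsum : ∀ d ∈ g.support, d 0 + d 1 ≤ 2 := by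
    intro d hd
    have h2 := MvPolynomial.le_totalDegree hd
    have h3 : (d.sum fun _ e => e) = d 0 + d 1 := by
      rw [Finsupp.sum_fintype _ _ (fun _ => rfl), Fin.sum_univ_two]
    rw [h3] at h2
    exact h2.trans hg
  let T := Pool.Agent.Helper9.CQ.Thr.T
  let S : Finset (Σ _ : ℕ, ℕ) := (Finset.range 3).sigma fun i => Finset.range (3 - i)
  let τ : (Σ _ : ℕ, ℕ) → (Fin 2 →₀ ℕ) := fun s => T s.1 s.2
  let F : (Fin 2 →₀ ℕ) → MvPolynomial (Fin 2) k := fun d =>
    MvPolynomial.monomial d (MvPolynomial.coeff d g)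
  have h1 : g = ∑ d ∈ g.support, F d := MvPolynomial.as_sum g
  have h2 : ∑ d ∈ g.support, F d = ∑ d ∈ S.image τ, F d := by
    apply Finset.sum_subset
    · intro d hd
      have h3 := hsum d hd
      rw [Finset.mem_image]
      refine ⟨⟨d 0, d 1⟩, ?_, ?_⟩
      · simp only [S, Finset.mem_sigma, Finset.mem_range]
        omega
      · ext k
        fin_cases k
        · rfl
        · rfl
    · intro d _ hd
      rw [MvPolynomial.notMem_support_iff] at hd
      simp only [F, hd, map_zero]
  have h3 : ∑ d ∈ S.image τ, F d = ∑ s ∈ S, F (τ s) := by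
    apply Finset.sum_image
    rintro ⟨a, b⟩ _ ⟨a', b'⟩ _ h
    have h4 : a = a' := DFunLike.congr_fun h 0
    have h5 : b = b' := DFunLike.congr_fun h 1
    rw [h4, h5]
  have h4 : ∀ i j, F (T i j) = MvPolynomial.C (MvPolynomial.coeff (T i j) g) *
      (MvPolynomial.X 0 ^ i * MvPolynomial.X 1 ^ j) := by
    intro i j
    simp only [F]
    rw [MvPolynomial.monomial_eq, Finsupp.prod_fintype _ _ (fun _ => pow_zero _),
      Fin.prod_univ_two]
    rfl
  refine ⟨![MvPolynomial.coeff (T 2 0) g, MvPolynomial.coeff (T 1 1) g,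
    MvPolynomial.coeff (T 0 2) g, MvPolynomial.coeff (T 1 0) g, MvPolynomial.coeff (T 0 1) g,
    MvPolynomial.coeff (T 0 0) g], ?_⟩
  conv_lhs => rw [h1, h2, h3, Finset.sum_sigma]
  simp only [τ, h4, Finset.sum_range_succ, Finset.sum_range_zero, G2, qf,
    MvPolynomial.algebraMap_eq]
  simp
  ring

/-! ### The affine plane -/

/-- the Kummer extension with the parameter zero -/
theorem pk_zero (hP : FormalClass p P) {n : ℕ} (hn : n ≠ 0) {R : Type} [CommRing R]
    (hft : Algebra.FiniteType ℤ R) (hp : (p : R) = 0) (h : P R) : PK P n (0 : R) := by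
  have hK := isKum_std n (0 : R)
  obtain ⟨q, -, -, hq⟩ := hK.closed hn
  have h1 : P (R ⧸ Ideal.span {(0 : R)}) := by
    rw [Set.singleton_zero, Ideal.span_zero]
    exact hP.iso _ _ (RingEquiv.quotientBot R).symm h
  refine glue' hP _ (hK.ft hft) (hK.char hp) hq (isLC_away _) h1 (p_zero hP ?_)
  refine (IsLocalization.subsingleton_iff
    (M := Submonoid.powers (AdjoinRoot.root (X ^ n - C (0 : R) : R[X])))).2 ⟨n, ?_⟩
  change AdjoinRoot.root (X ^ n - C (0 : R) : R[X]) ^ n = 0
  rw [hK.rel]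
  exact map_zero (AdjoinRoot.of (X ^ n - C (0 : R) : R[X]))

/-- the cyclic cover over the locus `g ≠ 0` -/
theorem qk_g [Finite k] (hP : FormalClass p P) (hk : (p : k) = 0) {n : ℕ} (hn : n ≠ 0)
    (f g : MvPolynomial (Fin 2) k) (hg : g ≠ 0) (h : f ≠ 0 → QK P n f g ⊥ (f * g)) :
    QK P n f g ⊥ g := by
  by_cases hf : f = 0
  · intro T _ j a hj hG ha
    have ha0 : a = 0 := by
      rw [hf, map_zero] at ha
      exact ((hG.pow 2).mul_left_eq_zero).1 ha
    rw [ha0]
    refine pk_zero hP hn (lc_ft hj (ft_fin 2)) (lc_char j (char_fin hk 2)) ?_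
    exact opn' hP g (isLC_quot g) hj (plane hP hk) (plane_curve hP hk hg)
  · refine qk_glue hP (ft_fin 2) (char_fin hk 2) f ?_ ?_
    · refine qk_curve hP hn (ft_fin 2) (char_fin hk 2) ?_
      rw [bot_sup_eq]
      exact dim_quot hf
    · rw [mul_comm g f]
      exact h hf

/-- the locus `g = 0`: `S/(g, f)[w]` -/
theorem gen_closed {S B : Type} [CommRing S] [CommRing B] {i : S →+* B} {w : B} {n : ℕ} {g f : S}
    (hB : IsGen i w n (g ^ 2) f) :
    ∃ q : B →+* (S ⧸ Ideal.span {g, f})[X], IsLC q (Ideal.span {i g}) 1 := by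
  have hg0 : Ideal.Quotient.mk (Ideal.span {g, f}) g = 0 :=
    Ideal.Quotient.eq_zero_iff_mem.2 (Ideal.subset_span (by simp))
  have hf0 : Ideal.Quotient.mk (Ideal.span {g, f}) f = 0 :=
    Ideal.Quotient.eq_zero_iff_mem.2 (Ideal.subset_span (by simp))
  obtain ⟨q, q1, q2⟩ := hB.ex (S ⧸ Ideal.span {g, f})[X]
    (C.comp (Ideal.Quotient.mk (Ideal.span {g, f}))) X (by
      rw [RingHom.comp_apply, RingHom.comp_apply, map_pow, hg0, hf0, map_zero,
        zero_pow two_ne_zero, map_zero, zero_mul])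
  refine ⟨q, ?_, ?_, ?_, ?_⟩
  · intro b hb
    obtain ⟨c, rfl⟩ := Ideal.mem_span_singleton'.1 hb
    have h1 : q (i g) = 0 := by
      have h2 := RingHom.congr_fun q1 g
      rw [RingHom.comp_apply, RingHom.comp_apply, hg0, map_zero] at h2
      exact h2
    rw [map_mul, h1, mul_zero]
  · rw [map_one]
    exact isUnit_one
  · intro E _ v hv _
    have hvg : v (i g) = 0 := hv _ (Ideal.mem_span_singleton_self _)
    have hvf : v (i f) = 0 := by
      rw [← hB.rel, map_mul, map_pow, map_pow, hvg, zero_pow two_ne_zero, zero_mul]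
    have hker : ∀ a ∈ Ideal.span {g, f}, (v.comp i) a = 0 := by
      have h3 : Ideal.span {g, f} ≤ RingHom.ker (v.comp i) := by
        rw [Ideal.span_le]
        rintro x (rfl | hx)
        · exact hvg
        · rw [Set.mem_singleton_iff] at hx
          rw [hx]
          exact hvf
      exact fun a ha => h3 ha
    refine ⟨eval₂RingHom (Ideal.Quotient.lift _ (v.comp i) hker) (v w), ?_⟩
    refine hB.uniq E _ _ ?_ ?_
    · rw [RingHom.comp_assoc, q1]
      refine RingHom.ext fun a => ?_
      simp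
    · rw [RingHom.comp_apply, q2]
      simp
  · intro E _ u u' hh
    refine Polynomial.ringHom_ext' ?_ ?_
    · apply Ideal.Quotient.ringHom_ext
      rw [RingHom.comp_assoc, RingHom.comp_assoc, ← q1, ← RingHom.comp_assoc, hh,
        RingHom.comp_assoc]
    · rw [← q2]
      exact RingHom.congr_fun hh w

/-- the locus `g ≠ 0` -/
theorem gen_open {S B : Type} [CommRing S] [CommRing B] {i : S →+* B} {w : B} {n : ℕ} {g f : S}
    (hB : IsGen i w n (g ^ 2) f) {T : Type} [CommRing T] {j : S →+* T} {a : T}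
    (hj : IsLC j ⊥ g) (hG : IsUnit (j g)) (ha : a * j g ^ 2 = j f) :
    ∃ r : B →+* AdjoinRoot (X ^ n - C a : T[X]), IsLC r ⊥ (i g) := by
  have hK := isKum_std n a
  obtain ⟨r, r1, r2⟩ := hB.ex _ ((AdjoinRoot.of (X ^ n - C a : T[X])).comp j)
    (AdjoinRoot.root (X ^ n - C a : T[X])) (by
      rw [hK.rel, RingHom.comp_apply, RingHom.comp_apply, ← map_mul, map_pow, ← ha, mul_comm])
  have hr : ∀ x, r (i x) = AdjoinRoot.of (X ^ n - C a : T[X]) (j x) := fun x =>
    RingHom.congr_fun r1 x
  refine ⟨r, ?_, ?_, ?_, ?_⟩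
  · intro b hb
    rw [Ideal.mem_bot.1 hb, map_zero]
  · rw [hr]
    exact hG.map _
  · intro E _ v _ hv
    obtain ⟨u, hu⟩ := hj.ex E (v.comp i) (fun b hb => by rw [Ideal.mem_bot.1 hb, map_zero]) hv
    have hu' : ∀ x, u (j x) = v (i x) := fun x => RingHom.congr_fun hu x
    obtain ⟨t, t1, t2⟩ := hK.ex E u (v w) (by
      have h1 : IsUnit (v (i g) ^ 2) := IsUnit.pow 2 hv
      apply h1.mul_left_cancel
      have h2 := congrArg v hB.rel
      rw [map_mul, map_pow, map_pow, map_pow] at h2
      rw [h2, ← hu', ← hu', ← ha, map_mul, map_pow, mul_comm])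
    refine ⟨t, hB.uniq E _ _ ?_ ?_⟩
    · refine RingHom.ext fun x => ?_
      change t (r (i x)) = v (i x)
      rw [hr, ← hu']
      exact RingHom.congr_fun t1 (j x)
    · rw [RingHom.comp_apply, r2, t2]
  · intro E _ u u' hh
    refine hK.uniq E _ _ ?_ ?_
    · apply hj.uniq
      refine RingHom.ext fun x => ?_
      have h1 := RingHom.congr_fun hh (i x)
      rw [RingHom.comp_apply, RingHom.comp_apply, hr] at h1
      exact h1
    · rw [← r2]
      exact RingHom.congr_fun hh w

/-- the closed part of `k[x, y, w] / (g ^ 2 w ^ n - f)` -/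
theorem p_closed [Finite k] (hP : FormalClass p P) (hk : (p : k) = 0)
    (f g : MvPolynomial (Fin 2) k) : P (MvPolynomial (Fin 2) k ⧸ Ideal.span {g, f})[X] := by
  refine hP.poly _ ?_
  by_cases hg : g = 0
  · rw [hg]
    by_cases hf : f = 0
    · rw [hf]
      have h2 : (Ideal.span {0, 0} : Ideal (MvPolynomial (Fin 2) k)) = ⊥ := by simp
      rw [h2]
      exact hP.iso _ _ (RingEquiv.quotientBot _).symm (plane hP hk)
    · have h2 : (Ideal.span {0, f} : Ideal (MvPolynomial (Fin 2) k)) = Ideal.span {f} := by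
        rw [Ideal.span_insert, Set.singleton_zero, Ideal.span_zero, bot_sup_eq]
      rw [h2]
      exact plane_curve hP hk hf
  · refine hP.curve _ ?_ ?_ ?_
    · exact ft_of_surj (ft_fin 2) (Ideal.Quotient.mk _) Ideal.Quotient.mk_surjective
    · rw [← map_natCast (Ideal.Quotient.mk (Ideal.span {g, f})), char_fin hk, map_zero]
    · have h2 : Ideal.span {g} ≤ Ideal.span {g, f} := Ideal.span_mono (by simp)
      exact (ringKrullDim_le_of_surjective (Ideal.Quotient.factor h2)
        (Ideal.Quotient.factor_surjective h2)).trans (dim_quot hg)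

/-- the ring `k[x, y, w] / (g ^ 2 w ^ n - f)` -/
theorem gen_mem [Finite k] (hP : FormalClass p P) (hk : (p : k) = 0) {n : ℕ} (hn : n ≠ 0)
    (f g : MvPolynomial (Fin 2) k) (h : f ≠ 0 → g ≠ 0 → QK P n f g ⊥ (f * g)) :
    P (Gen (MvPolynomial (Fin 2) k) n (g ^ 2) f) := by
  have hB := isGen_std n (g ^ 2) f
  obtain ⟨q, hq⟩ := gen_closed hB
  have hftB := hB.ft (ft_fin 2)
  have hpB := hB.char (p := p) (char_fin hk 2)
  have hcl := p_closed hP hk f g
  by_cases hg : g = 0
  · refine glue' hP _ hftB hpB hq (isLC_away _) hcl (p_zero hP ?_)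
    refine (IsLocalization.subsingleton_iff (M := Submonoid.powers
      (AdjoinRoot.of (C (g ^ 2) * X ^ n - C f : (MvPolynomial (Fin 2) k)[X]) g))).2 ⟨1, ?_⟩
    change AdjoinRoot.of (C (g ^ 2) * X ^ n - C f : (MvPolynomial (Fin 2) k)[X]) g ^ 1 = 0
    rw [hg, map_zero, pow_one]
  · have hj := isLC_away g
    obtain ⟨a, ha⟩ := ex_a (algebraMap (MvPolynomial (Fin 2) k) (Localization.Away g)) f g hj.unit
    obtain ⟨r, hr⟩ := gen_open hB hj hj.unit ha
    exact glue' hP _ hftB hpB hq hr hcl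
      (qk_g hP hk hn f g hg (fun hf => h hf hg) _ _ a hj hj.unit ha)

/-- **Cyclic covers of the plane branched along a quartic curve and a double conic.** -/
theorem pencils (B : Blocks) (hp : p.Prime) (hp2 : p ≠ 2) (hP : StableClass p P) [Finite k]
    [CharP k p] (f g : MvPolynomial (Fin 2) k) (hf : f.totalDegree ≤ 4) (hg : g.totalDegree ≤ 2)
    (n : ℕ) (hn : 0 < n) : P (Gen (MvPolynomial (Fin 2) k) n (g ^ 2) f) := by
  have hpp : Fact p.Prime := ⟨hp⟩
  have hk : (p : k) = 0 := CharP.cast_eq_zero k p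
  have hP' := hP.toFormalClass
  induction n using Nat.strong_induction_on generalizing f g with
  | _ n ih =>
  by_cases hpn : p ∣ n
  · obtain ⟨m, rfl⟩ := hpn
    have hm : 0 < m := Nat.pos_of_mul_pos_left hn
    obtain ⟨φ, hφ⟩ := ex_root hk f
    obtain ⟨φ', hφ'⟩ := ex_root hk g
    have hd : ∀ (ψ : k →+* k) (a : MvPolynomial (Fin 2) k) (d : ℕ), a.totalDegree ≤ d →
        (MvPolynomial.map ψ a).totalDegree ≤ d := fun ψ a d ha =>
      (Finset.sup_mono (MvPolynomial.support_map_subset ψ a)).trans ha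
    refine gen_insep hP' hk (g ^ 2) f (MvPolynomial.map φ' g ^ 2) (MvPolynomial.map φ f) ?_ hφ ?_
    · rw [map_pow, hφ', ← pow_mul, ← pow_mul, mul_comm]
    · exact ih m (by nlinarith [hp.two_le]) _ _ (hd φ f 4 hf) (hd φ' g 2 hg) hm
  · refine gen_mem hP' hk hn.ne' f g fun hf0 hg0 => ?_
    obtain ⟨c, rfl⟩ := exists_c f hf
    obtain ⟨q, rfl⟩ := exists_q g hg
    refine pk_aff hP' (fun A _ hA _ h => torus_rule hP A hA h) hk hn.ne' c q ?_
    by_cases hinv : ∃ u : Fin 3 → k, u ≠ 0 ∧ Inv c u ∧ InvQ q u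
    · obtain ⟨u, hu, hc, hq⟩ := hinv
      exact qk_prod hP' hk hn.ne' c q u hu hc hq
    · have hc : ∃ i j, i + j ≤ 4 ∧ c i j ≠ 0 := by
        by_contra hcon
        push Not at hcon
        apply hf0
        simp only [F4]
        rw [hcon 0 0 (by norm_num), hcon 1 0 (by norm_num), hcon 0 1 (by norm_num),
          hcon 2 0 (by norm_num), hcon 1 1 (by norm_num), hcon 0 2 (by norm_num),
          hcon 3 0 (by norm_num), hcon 2 1 (by norm_num), hcon 1 2 (by norm_num),
          hcon 0 3 (by norm_num), hcon 4 0 (by norm_num), hcon 3 1 (by norm_num),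
          hcon 2 2 (by norm_num), hcon 1 3 (by norm_num), hcon 0 4 (by norm_num)]
        simp
      have hq : q ≠ 0 := by
        rintro rfl
        apply hg0
        simp [qf]
      have hj := isLC_away (F3 c * G3 q)
      obtain ⟨a, ha⟩ := ex_a (algebraMap (MvPolynomial (Fin 3) k) (R3 c q)) (F3 c) (G3 q) (by
        have h1 := hj.unit
        rw [map_mul] at h1
        exact isUnit_of_mul_isUnit_right h1)
      have hau : IsUnit a := by
        have h1 := hj.unit
        rw [map_mul, ← ha] at h1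
        exact isUnit_of_mul_isUnit_left (isUnit_of_mul_isUnit_left h1)
      refine qk_model hP' hj ha ?_
      refine hP'.twist _ a n hau hpn ?_
      refine dbl_cone c q B hp hp2 hP' hc hq hinv n a ?_
      rw [co_F, co_G]
      exact ha

end Pool.Agent.Helper9.QP
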