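import Pool.Agent.Helper9.QP.QK

/-!
# From the cone to the affine plane
-/

set_option autoImplicit false

namespace Pool.Agent.Helper9.QP

open Polynomial
open Pool.Agent.Helper87.CC (IsLC isLC_std ft_of_surj ft_of_hom ft_loc ft_alg)
open Pool.Agent.Helper29.CQ (FormalClass)
open Pool.Agent.Helper67.CQ
open Pool.Agent.Helper29.CQ (bin4 bin4_map lead F4 qf F4_map qf_map)

variable {p : ℕ} {P : ∀ (A : Type) [CommRing A], Prop} {k : Type} [Field k]

theorem ft_fin [Finite k] (m : ℕ) : Algebra.FiniteType ℤ (MvPolynomial (Fin m) k) := by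
  have h1 : Algebra.FiniteType ℤ k := by
    have : Module.Finite ℤ k := Module.Finite.of_finite
    infer_instance
  exact ft_alg h1 inferInstance

theorem char_fin (hk : (p : k) = 0) (m : ℕ) : (p : MvPolynomial (Fin m) k) = 0 := by
  rw [← map_natCast (MvPolynomial.C : k →+* MvPolynomial (Fin m) k), hk, map_zero]

/-- binary forms -/
theorem qk_bin [Finite k] (hP : FormalClass p P) (hk : (p : k) = 0) {n : ℕ} (hn : n ≠ 0)
    (a : Fin 5 → k) (b : Fin 3 → k) :
    QK P n (bin4 a (MvPolynomial.X 0) (MvPolynomial.X 1) : MvPolynomial (Fin 2) k)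
      (bq b (MvPolynomial.X 0) (MvPolynomial.X 1)) ⊥
      (bin4 a (MvPolynomial.X 0) (MvPolynomial.X 1) *
        bq b (MvPolynomial.X 0) (MvPolynomial.X 1)) := by
  refine qk_glue hP (ft_fin 2) (char_fin hk 2) (MvPolynomial.X 1) ?_ ?_
  · refine qk_curve hP hn (ft_fin 2) (char_fin hk 2) ?_
    rw [bot_sup_eq]
    exact dim_quot (MvPolynomial.X_ne_zero 1)
  · obtain ⟨j, hj, hja⟩ := lc_bin a b
    have hfk : Algebra.FiniteType ℤ k := by
      have : Module.Finite ℤ k := Module.Finite.of_finite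
      infer_instance
    have hft : Algebra.FiniteType ℤ k[X] := ft_alg hfk inferInstance
    have hpX : (p : k[X]) = 0 := by rw [← map_natCast (C : k →+* k[X]), hk, map_zero]
    have hG : IsUnit (algebraMap k[X] (Localization.Away (bin4 a (X : k[X]) 1 *
        bq b (X : k[X]) 1)) (bq b (X : k[X]) 1)) := by
      have h1 : IsUnit (algebraMap k[X] (Localization.Away (bin4 a (X : k[X]) 1 *
        bq b (X : k[X]) 1)) (bin4 a (X : k[X]) 1 * bq b (X : k[X]) 1)) :=
        IsLocalization.Away.algebraMap_isUnit _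
      rw [map_mul] at h1
      exact isUnit_of_mul_isUnit_right h1
    obtain ⟨c, hc⟩ := ex_a (algebraMap k[X] (Localization.Away (bin4 a (X : k[X]) 1 *
        bq b (X : k[X]) 1))) (bin4 a (X : k[X]) 1) (bq b (X : k[X]) 1) hG
    refine qk_model hP hj (hja c hc) (pk_lau hP c ?_)
    refine pk_curve hP hn (ft_loc hft _) ?_ ?_ c
    · rw [← map_natCast (algebraMap k[X] _), hpX, map_zero]
    · refine dim_away _ ?_
      rw [Polynomial.ringKrullDim_of_isNoetherianRing, ringKrullDim_eq_zero_of_field]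
      exact le_of_eq (zero_add 1)

/-! ### The section `z = 0` of the cone -/

/-- the projection `z = 0` -/
noncomputable def pr (k : Type) [Field k] : MvPolynomial (Fin 3) k →ₐ[k] MvPolynomial (Fin 2) k :=
  MvPolynomial.aeval ![MvPolynomial.X 0, MvPolynomial.X 1, 0]

/-- the inclusion -/
noncomputable def inc (k : Type) [Field k] : MvPolynomial (Fin 2) k →ₐ[k] MvPolynomial (Fin 3) k :=
  MvPolynomial.aeval ![MvPolynomial.X 0, MvPolynomial.X 1]

theorem pr_inc (x : MvPolynomial (Fin 2) k) : pr k (inc k x) = x := by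
  have h1 : (pr k).comp (inc k) = AlgHom.id k _ := by
    apply MvPolynomial.algHom_ext
    intro i
    fin_cases i <;> simp [pr, inc]
  exact DFunLike.congr_fun h1 x

theorem comp_inc_pr {T : Type} [CommRing T] (j : MvPolynomial (Fin 3) k →+* T)
    (h : j (MvPolynomial.X 2) = 0) : (j.comp (inc k).toRingHom).comp (pr k).toRingHom = j := by
  apply MvPolynomial.ringHom_ext
  · intro c
    change j (inc k (pr k (algebraMap k _ c))) = j (algebraMap k _ c)
    rw [AlgHom.commutes, AlgHom.commutes]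
  · intro i
    change j (inc k (pr k (MvPolynomial.X i))) = j (MvPolynomial.X i)
    fin_cases i
    · simp [pr, inc]
    · simp [pr, inc]
    · simp [pr, inc, h]

theorem qk_flat {n : ℕ} {F G u : MvPolynomial (Fin 3) k}
    (h : QK P n (pr k F) (pr k G) ⊥ (pr k u)) :
    QK P n F G (⊥ ⊔ Ideal.span {MvPolynomial.X 2}) u := by
  intro T _ j a hj hG ha
  have h0 : j (MvPolynomial.X 2) = 0 :=
    hj.zero _ (Ideal.mem_sup_right (Ideal.mem_span_singleton_self _))
  have hc := comp_inc_pr j h0
  have hc' : ∀ x, j (inc k (pr k x)) = j x := fun x => RingHom.congr_fun hc x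
  refine h T (j.comp (inc k).toRingHom) a ⟨?_, ?_, ?_, ?_⟩ ?_ ?_
  · intro x hx
    rw [Ideal.mem_bot.1 hx, map_zero]
  · change IsUnit (j (inc k (pr k u)))
    rw [hc']
    exact hj.unit
  · intro E _ v _ hv
    have h1 : (⊥ ⊔ Ideal.span {MvPolynomial.X 2} : Ideal (MvPolynomial (Fin 3) k)) ≤
        RingHom.ker (v.comp (pr k).toRingHom) := by
      rw [bot_sup_eq, Ideal.span_singleton_le_iff_mem, RingHom.mem_ker]
      change v (pr k (MvPolynomial.X 2)) = 0
      simp [pr]
    obtain ⟨g, hg⟩ := hj.ex E (v.comp (pr k).toRingHom) (fun b hb => h1 hb) hv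
    refine ⟨g, ?_⟩
    refine RingHom.ext fun x => ?_
    have h2 := RingHom.congr_fun hg (inc k x)
    change g (j (inc k x)) = v (pr k (inc k x)) at h2
    rw [pr_inc] at h2
    exact h2
  · intro E _ g g' hh
    apply hj.uniq
    rw [← hc, ← RingHom.comp_assoc, hh, RingHom.comp_assoc]
  · change IsUnit (j (inc k (pr k G)))
    rw [hc']
    exact hG
  · change a * j (inc k (pr k G)) ^ 2 = j (inc k (pr k F))
    rw [hc', hc']
    exact ha

/-! ### The affine chart of the cone -/

/-- the quartic form -/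
noncomputable abbrev F3 (c : ℕ → ℕ → k) : MvPolynomial (Fin 3) k :=
  F4 c (MvPolynomial.X 0) (MvPolynomial.X 1) (MvPolynomial.X 2)

/-- the quadratic form -/
noncomputable abbrev G3 (q : Fin 6 → k) : MvPolynomial (Fin 3) k :=
  qf q (MvPolynomial.X 0) (MvPolynomial.X 1) (MvPolynomial.X 2)

/-- the quartic polynomial -/
noncomputable abbrev F2 (c : ℕ → ℕ → k) : MvPolynomial (Fin 2) k :=
  F4 c (MvPolynomial.X 0) (MvPolynomial.X 1) 1

/-- the quadratic polynomial -/
noncomputable abbrev G2 (q : Fin 6 → k) : MvPolynomial (Fin 2) k :=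
  qf q (MvPolynomial.X 0) (MvPolynomial.X 1) 1

theorem lc_cone (c : ℕ → ℕ → k) (q : Fin 6 → k) :
    ∃ j : MvPolynomial (Fin 3) k →+* Lau (Localization.Away (F2 c * G2 q)),
      IsLC j ⊥ (F3 c * G3 q * MvPolynomial.X 2) ∧
      ∀ a : Localization.Away (F2 c * G2 q),
        a * algebraMap _ _ (G2 q) ^ 2 = algebraMap _ _ (F2 c) →
        cL a * j (G3 q) ^ 2 = j (F3 c) := by
  set C0 := Localization.Away (F2 c * G2 q) with hC0
  let ι : MvPolynomial (Fin 2) k →ₐ[k] C0 := IsScalarTower.toAlgHom k (MvPolynomial (Fin 2) k) C0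
  let m : C0 →ₐ[k] Lau C0 := (IsScalarTower.toAlgHom k C0[X] (Lau C0)).comp
    (IsScalarTower.toAlgHom k C0 C0[X])
  have hm : ∀ c, m c = cL c := fun c => rfl
  let Z : Lau C0 := algebraMap C0[X] (Lau C0) X
  have hZ : IsUnit Z := IsLocalization.Away.algebraMap_isUnit (X : C0[X])
  let x : Lau C0 := m (ι (MvPolynomial.X 0))
  let y : Lau C0 := m (ι (MvPolynomial.X 1))
  let j : MvPolynomial (Fin 3) k →ₐ[k] Lau C0 := MvPolynomial.aeval ![x * Z, y * Z, Z]
  have j0 : j (MvPolynomial.X 0) = x * Z := by simp [j]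
  have j1 : j (MvPolynomial.X 1) = y * Z := by simp [j]
  have j2 : j (MvPolynomial.X 2) = Z := by simp [j]
  have hF : ∀ (E : Type) [CommRing E] [Algebra k E] (r s t : E),
      F4 c (r * t) (s * t) t = t ^ 4 * F4 c r s 1 := by
    intro E _ _ r s t
    simp only [F4]
    ring
  have hG : ∀ (E : Type) [CommRing E] [Algebra k E] (r s t : E),
      qf q (r * t) (s * t) t = t ^ 2 * qf q r s 1 := by
    intro E _ _ r s t
    simp only [qf]
    ring
  have jF : j (F3 c) = Z ^ 4 * m (ι (F2 c)) := by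
    rw [F4_map, j0, j1, j2, hF, F4_map, F4_map, map_one, map_one]
  have jG : j (G3 q) = Z ^ 2 * m (ι (G2 q)) := by
    rw [qf_map, j0, j1, j2, hG, qf_map, qf_map, map_one, map_one]
  have hu : IsUnit (ι (F2 c * G2 q)) := IsLocalization.Away.algebraMap_isUnit _
  have hjC : ∀ c : k, (j : MvPolynomial (Fin 3) k →+* Lau C0) (MvPolynomial.C c) =
      algebraMap C0[X] (Lau C0) (C (algebraMap (MvPolynomial (Fin 2) k) C0 (MvPolynomial.C c))) := by
    intro c
    change j (algebraMap k _ c) = _
    rw [AlgHom.commutes]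
    rfl
  refine ⟨(j : MvPolynomial (Fin 3) k →+* Lau C0), ⟨?_, ?_, ?_, ?_⟩, ?_⟩
  · intro x hx
    rw [Ideal.mem_bot.1 hx, map_zero]
  · change IsUnit (j _)
    rw [map_mul, map_mul, jF, jG, j2]
    rw [map_mul] at hu
    have h1 := (isUnit_of_mul_isUnit_left hu).map m
    have h2 := (isUnit_of_mul_isUnit_right hu).map m
    exact (((hZ.pow 4).mul h1).mul ((hZ.pow 2).mul h2)).mul hZ
  · intro E _ v _ hv
    let _ : Algebra k E := (v.comp MvPolynomial.C).toAlgebra
    let v' : MvPolynomial (Fin 3) k →ₐ[k] E := { v with commutes' := fun _ => rfl }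
    have hv' : ∀ x, v' x = v x := fun _ => rfl
    have hu0 : IsUnit (v' (F3 c) * v' (G3 q) * v' (MvPolynomial.X 2)) := by
      rw [← map_mul, ← map_mul]
      exact hv
    have hut : IsUnit (v' (MvPolynomial.X 2)) := isUnit_of_mul_isUnit_right hu0
    have hu1 := isUnit_of_mul_isUnit_left hu0
    obtain ⟨t, ht⟩ := hut
    set r : E := v' (MvPolynomial.X 0) * (t⁻¹ : Eˣ) with hr
    have hrt : v' (MvPolynomial.X 0) = r * t := by
      rw [hr, mul_assoc, Units.inv_mul, mul_one]
    set s : E := v' (MvPolynomial.X 1) * (t⁻¹ : Eˣ) with hs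
    have hst : v' (MvPolynomial.X 1) = s * t := by
      rw [hs, mul_assoc, Units.inv_mul, mul_one]
    rw [F4_map, qf_map, hrt, hst, ← ht, hF, hG] at hu1
    let φ : MvPolynomial (Fin 2) k →ₐ[k] E := MvPolynomial.aeval ![r, s]
    have φ0 : φ (MvPolynomial.X 0) = r := by simp [φ]
    have φ1 : φ (MvPolynomial.X 1) = s := by simp [φ]
    have hφ : IsUnit (φ (F2 c * G2 q)) := by
      rw [map_mul, F4_map, qf_map, map_one, φ0, φ1]
      exact (isUnit_of_mul_isUnit_right (isUnit_of_mul_isUnit_left hu1)).mul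
        (isUnit_of_mul_isUnit_right (isUnit_of_mul_isUnit_right hu1))
    let g0 : C0 →+* E := IsLocalization.Away.lift (g := (φ : MvPolynomial (Fin 2) k →+* E))
      (F2 c * G2 q) hφ
    have hg0 : ∀ x, g0 (algebraMap (MvPolynomial (Fin 2) k) C0 x) = φ x := fun x =>
      IsLocalization.Away.lift_eq (g := (φ : MvPolynomial (Fin 2) k →+* E)) _ hφ x
    let g1 : C0[X] →+* E := eval₂RingHom g0 (t : E)
    have hg1 : IsUnit (g1 X) := by
      rw [coe_eval₂RingHom, eval₂_X]
      exact t.isUnit
    let g2 : Lau C0 →+* E := IsLocalization.Away.lift (g := g1) (X : C0[X]) hg1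
    have hg2 : ∀ x, g2 (algebraMap C0[X] (Lau C0) x) = g1 x := fun x =>
      IsLocalization.Away.lift_eq (g := g1) _ hg1 x
    have hgZ : g2 Z = t := by
      change g2 (algebraMap C0[X] (Lau C0) X) = _
      rw [hg2, coe_eval₂RingHom, eval₂_X]
    have hgm : ∀ a, g2 (m (ι a)) = φ a := by
      intro a
      change g2 (algebraMap C0[X] (Lau C0) (C (algebraMap (MvPolynomial (Fin 2) k) C0 a))) = _
      rw [hg2, coe_eval₂RingHom, eval₂_C, hg0]
    refine ⟨g2, ?_⟩
    apply MvPolynomial.ringHom_ext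
    · intro c
      rw [RingHom.comp_apply, hjC, hg2, coe_eval₂RingHom, eval₂_C, hg0]
      change φ (algebraMap k _ c) = _
      rw [AlgHom.commutes]
      rfl
    · intro i
      rw [RingHom.comp_apply]
      fin_cases i
      · change g2 (j (MvPolynomial.X 0)) = v' (MvPolynomial.X 0)
        rw [j0, map_mul, hgm, hgZ, φ0, hrt]
      · change g2 (j (MvPolynomial.X 1)) = v' (MvPolynomial.X 1)
        rw [j1, map_mul, hgm, hgZ, φ1, hst]
      · change g2 (j (MvPolynomial.X 2)) = v' (MvPolynomial.X 2)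
        rw [j2, hgZ, ht]
  · intro E _ h h' hh
    have e0 : h (x * Z) = h' (x * Z) := by
      rw [← j0]
      exact RingHom.congr_fun hh _
    have e1 : h (y * Z) = h' (y * Z) := by
      rw [← j1]
      exact RingHom.congr_fun hh _
    have e2 : h Z = h' Z := by
      rw [← j2]
      exact RingHom.congr_fun hh _
    rw [map_mul, map_mul, ← e2] at e0 e1
    have e3 : h x = h' x := (hZ.map h).mul_right_cancel e0
    have e4 : h y = h' y := (hZ.map h).mul_right_cancel e1
    apply IsLocalization.ringHom_ext (Submonoid.powers (X : C0[X]))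
    refine Polynomial.ringHom_ext' ?_ e2
    apply IsLocalization.ringHom_ext (Submonoid.powers (F2 c * G2 q))
    apply MvPolynomial.ringHom_ext
    · intro c
      have h1 := RingHom.congr_fun hh (MvPolynomial.C c)
      rw [RingHom.comp_apply, RingHom.comp_apply, hjC] at h1
      exact h1
    · intro i
      fin_cases i
      · exact e3
      · exact e4
  · intro a ha
    change cL a * j _ ^ 2 = j _
    rw [jF, jG, ← hm]
    have h1 := congrArg m ha
    rw [map_mul, map_pow] at h1
    change m a * m (ι (G2 q)) ^ 2 = m (ι (F2 c)) at h1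
    rw [← h1]
    ring

/-! ### Kummer extensions of a torus -/

theorem isKum_lau {R B : Type} [CommRing R] [CommRing B] {i : R →+* B} {w : B} {n : ℕ} {a : R}
    (hB : IsKum i w n a) : ∃ i' : Lau R →+* Lau B, IsKum i' (cL w) n (cL a) := by
  have h1 : IsUnit (((algebraMap B[X] (Lau B)).comp (mapRingHom i)) X) := by
    rw [RingHom.comp_apply, coe_mapRingHom, map_X]
    exact IsLocalization.Away.algebraMap_isUnit (X : B[X])
  refine ⟨IsLocalization.Away.lift (X : R[X]) h1, ?_, ?_, ?_⟩
  · change _ = IsLocalization.Away.lift (X : R[X]) h1 (algebraMap R[X] (Lau R) (C a))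
    rw [IsLocalization.Away.lift_eq]
    change algebraMap B[X] (Lau B) (C w) ^ n = algebraMap B[X] (Lau B) (mapRingHom i (C a))
    rw [coe_mapRingHom, map_C, ← hB.rel, ← map_pow, ← map_pow]
  · intro E _ v c hc
    obtain ⟨g, hg1, hg2⟩ := hB.ex E (v.comp cL) c hc
    have h2 : IsUnit ((eval₂RingHom g (v (algebraMap R[X] (Lau R) X))) (X : B[X])) := by
      rw [coe_eval₂RingHom, eval₂_X]
      exact (IsLocalization.Away.algebraMap_isUnit (X : R[X])).map v
    refine ⟨IsLocalization.Away.lift (X : B[X]) h2, ?_, ?_⟩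
    · apply IsLocalization.ringHom_ext (Submonoid.powers (X : R[X]))
      refine RingHom.ext fun b => ?_
      rw [RingHom.comp_apply, RingHom.comp_apply, IsLocalization.Away.lift_eq, RingHom.comp_apply,
        IsLocalization.Away.lift_eq]
      have h3 : (eval₂RingHom g (v (algebraMap R[X] (Lau R) X))).comp (mapRingHom i) =
          v.comp (algebraMap R[X] (Lau R)) := by
        refine Polynomial.ringHom_ext' ?_ ?_
        · refine RingHom.ext fun r => ?_
          have h4 := RingHom.congr_fun hg1 r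
          simpa using h4
        · simp
      exact RingHom.congr_fun h3 b
    · change IsLocalization.Away.lift (X : B[X]) h2 (algebraMap B[X] (Lau B) (C w)) = c
      rw [IsLocalization.Away.lift_eq, coe_eval₂RingHom, eval₂_C, hg2]
  · intro E _ h h' hh hw
    have hX : h (algebraMap B[X] (Lau B) X) = h' (algebraMap B[X] (Lau B) X) := by
      have h3 := RingHom.congr_fun hh (algebraMap R[X] (Lau R) X)
      rw [RingHom.comp_apply, RingHom.comp_apply, IsLocalization.Away.lift_eq,
        RingHom.comp_apply, coe_mapRingHom, map_X] at h3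
      exact h3
    apply IsLocalization.ringHom_ext (Submonoid.powers (X : B[X]))
    refine Polynomial.ringHom_ext' ?_ hX
    refine hB.uniq E _ _ ?_ hw
    refine RingHom.ext fun r => ?_
    have h3 := RingHom.congr_fun hh (algebraMap R[X] (Lau R) (C r))
    rw [RingHom.comp_apply, RingHom.comp_apply, IsLocalization.Away.lift_eq,
      RingHom.comp_apply, coe_mapRingHom, map_C] at h3
    exact h3

/-- the torus rule for Kummer extensions -/
theorem pk_of_lau (hP : FormalClass p P)
    (hT : ∀ (A : Type) [CommRing A], Algebra.FiniteType ℤ A → (p : A) = 0 → P (Lau A) → P A)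
    {n : ℕ} {R : Type} [CommRing R] (hft : Algebra.FiniteType ℤ R) (hp : (p : R) = 0) (a : R)
    (h : PK P n (cL a)) : PK P n a := by
  obtain ⟨i', hi⟩ := isKum_lau (isKum_std n a)
  have hK := isKum_std n a
  refine hT _ (hK.ft hft) (hK.char hp) ?_
  exact iso_kum hP (isKum_std n (cL a)) hi h

/-- the affine part of the cyclic cover of the projective plane -/
theorem pk_aff [Finite k] (hP : FormalClass p P)
    (hT : ∀ (A : Type) [CommRing A], Algebra.FiniteType ℤ A → (p : A) = 0 → P (Lau A) → P A)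
    (hk : (p : k) = 0) {n : ℕ} (hn : n ≠ 0) (c : ℕ → ℕ → k) (q : Fin 6 → k)
    (h : QK P n (F3 c) (G3 q) ⊥ (F3 c * G3 q)) :
    QK P n (F2 c) (G2 q) ⊥ (F2 c * G2 q) := by
  have hG : IsUnit (algebraMap (MvPolynomial (Fin 2) k) (Localization.Away (F2 c * G2 q))
      (G2 q)) := by
    have h1 : IsUnit (algebraMap (MvPolynomial (Fin 2) k) (Localization.Away (F2 c * G2 q))
      (F2 c * G2 q)) := IsLocalization.Away.algebraMap_isUnit _
    rw [map_mul] at h1
    exact isUnit_of_mul_isUnit_right h1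
  obtain ⟨a, ha⟩ := ex_a (algebraMap (MvPolynomial (Fin 2) k) (Localization.Away (F2 c * G2 q)))
    (F2 c) (G2 q) hG
  refine qk_model hP (isLC_away (F2 c * G2 q)) ha ?_
  refine pk_of_lau hP hT (ft_loc (ft_fin 2) _) ?_ a ?_
  · rw [← map_natCast (algebraMap (MvPolynomial (Fin 2) k) _), char_fin hk, map_zero]
  obtain ⟨j, hj, hja⟩ := lc_cone c q
  have h1 : QK P n (F3 c) (G3 q) ⊥ (F3 c * G3 q * MvPolynomial.X 2) := by
    refine qk_open hP _ (Dvd.intro_left _ rfl) (qk_flat ?_) h
    rw [map_mul, F4_map, qf_map]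
    have e0 : pr k (MvPolynomial.X 0) = MvPolynomial.X 0 := by simp [pr]
    have e1 : pr k (MvPolynomial.X 1) = MvPolynomial.X 1 := by simp [pr]
    have e2 : pr k (MvPolynomial.X 2) = 0 := by simp [pr]
    rw [e0, e1, e2]
    have e3 : F4 c (MvPolynomial.X 0) (MvPolynomial.X 1) 0 =
        bin4 (lead c) (MvPolynomial.X 0 : MvPolynomial (Fin 2) k) (MvPolynomial.X 1) := by
      simp only [F4, bin4, lead]
      simp
      ring
    have e4 : qf q (MvPolynomial.X 0) (MvPolynomial.X 1) 0 =
        bq ![q 0, q 1, q 2] (MvPolynomial.X 0 : MvPolynomial (Fin 2) k) (MvPolynomial.X 1) := by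
      simp [qf, bq]
    rw [e3, e4]
    exact qk_bin hP hk hn _ _
  refine h1 _ j (cL a) hj ?_ (hja a ha)
  exact isUnit_of_dvd_unit (map_dvd j (Dvd.intro_left (F3 c) rfl |>.mul_right _)) hj.unit

end Pool.Agent.Helper9.QP
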