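import Pool.Agent.Helper9.QP.Arith
import Pool.Agent.Helper9.CT.Fibres

/-!
# The fibres over the line of the quotient of the cone
-/

set_option autoImplicit false

namespace Pool.Agent.Helper9.QP

open Pool.Agent.Helper29.CQ Pool.Agent.Helper65.CC Pool.Agent.Helper87.CC
  Pool.Agent.Helper65.CC.KFn
open Pool.Agent.Helper67.CQ (Dbl IsDbl isDbl_std)
open Pool.Agent.Helper9.CT (dblF dbl_mem)
open Polynomial

variable {k : Type} [Field k]

theorem F4_hom {R S : Type} [CommRing R] [Algebra k R] [CommRing S] {K : Type} [Field K]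
    [Algebra K S] (ρ : R →+* S) (g : k → K) (h : ∀ c, ρ (algebraMap k R c) = algebraMap K S (g c))
    (c : ℕ → ℕ → k) (x y z : R) :
    ρ (F4 c x y z) = F4 (fun i j => g (c i j)) (ρ x) (ρ y) (ρ z) := by
  simp [F4, h]

theorem qf_hom {R S : Type} [CommRing R] [Algebra k R] [CommRing S] {K : Type} [Field K]
    [Algebra K S] (ρ : R →+* S) (g : k → K) (h : ∀ c, ρ (algebraMap k R c) = algebraMap K S (g c))
    (q : Fin 6 → k) (x y z : R) :
    ρ (qf q x y z) = qf (fun i => g (q i)) (ρ x) (ρ y) (ρ z) := by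
  simp [qf, h]

section

variable (c : ℕ → ℕ → k) (q : Fin 6 → k)

/-- the complement of `F G = 0` in the space -/
abbrev R3 : Type := Localization.Away (F3 c * G3 q)

/-- the coordinates -/
noncomputable abbrev co (i : Fin 3) : R3 c q :=
  algebraMap (MvPolynomial (Fin 3) k) (R3 c q) (MvPolynomial.X i)

theorem co_F : F4 c (co c q 0) (co c q 1) (co c q 2) =
    algebraMap (MvPolynomial (Fin 3) k) (R3 c q) (F3 c) :=
  (F4_map c (IsScalarTower.toAlgHom k (MvPolynomial (Fin 3) k) (R3 c q)) _ _ _).symm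

theorem co_G : qf q (co c q 0) (co c q 1) (co c q 2) =
    algebraMap (MvPolynomial (Fin 3) k) (R3 c q) (G3 q) :=
  (qf_map q (IsScalarTower.toAlgHom k (MvPolynomial (Fin 3) k) (R3 c q)) _ _ _).symm

theorem co_unit : IsUnit (F4 c (co c q 0) (co c q 1) (co c q 2)) ∧
    IsUnit (qf q (co c q 0) (co c q 1) (co c q 2)) := by
  rw [co_F, co_G]
  have h1 : IsUnit (algebraMap (MvPolynomial (Fin 3) k) (R3 c q) (F3 c * G3 q)) :=
    IsLocalization.Away.algebraMap_isUnit _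
  rw [map_mul] at h1
  exact ⟨isUnit_of_mul_isUnit_left h1, isUnit_of_mul_isUnit_right h1⟩

theorem alg_R3 (d : k) : algebraMap k (R3 c q) d =
    algebraMap (MvPolynomial (Fin 3) k) (R3 c q) (MvPolynomial.C d) := rfl

variable {c q}

/-- ring homomorphisms from the coordinate ring -/
theorem ex_hom {K : Type} [Field K] (φ : k →+* K) {S : Type} [CommRing S] [Algebra K S]
    (x y z : S) (hF : IsUnit (F4 (fun i j => φ (c i j)) x y z))
    (hG : IsUnit (qf (fun i => φ (q i)) x y z)) :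
    ∃ ρ : R3 c q →+* S, (∀ d, ρ (algebraMap k (R3 c q) d) = algebraMap K S (φ d)) ∧
      ρ (co c q 0) = x ∧ ρ (co c q 1) = y ∧ ρ (co c q 2) = z := by
  let g : MvPolynomial (Fin 3) k →+* S :=
    MvPolynomial.eval₂Hom ((algebraMap K S).comp φ) ![x, y, z]
  have gC : ∀ d, g (MvPolynomial.C d) = algebraMap K S (φ d) := fun d =>
    MvPolynomial.eval₂Hom_C _ _ _
  have g0 : g (MvPolynomial.X 0) = x := by simp [g]
  have g1 : g (MvPolynomial.X 1) = y := by simp [g]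
  have g2 : g (MvPolynomial.X 2) = z := by simp [g]
  have hu : IsUnit (g (F3 c * G3 q)) := by
    rw [map_mul, F4_hom g φ gC, qf_hom g φ gC, g0, g1, g2]
    exact hF.mul hG
  have hl : ∀ a, (IsLocalization.Away.lift (F3 c * G3 q) hu : R3 c q →+* S)
      (algebraMap (MvPolynomial (Fin 3) k) (R3 c q) a) = g a := fun a =>
    IsLocalization.Away.lift_eq _ hu a
  refine ⟨IsLocalization.Away.lift (F3 c * G3 q) hu, ?_, ?_, ?_, ?_⟩
  · intro d
    rw [alg_R3, hl, gC]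
  · rw [hl, g0]
  · rw [hl, g1]
  · rw [hl, g2]

theorem hom_ext3 {S : Type} [CommRing S] (ρ ρ' : R3 c q →+* S)
    (h : ∀ d, ρ (algebraMap k (R3 c q) d) = ρ' (algebraMap k (R3 c q) d))
    (h3 : ∀ i, ρ (co c q i) = ρ' (co c q i)) : ρ = ρ' := by
  apply IsLocalization.ringHom_ext (Submonoid.powers (F3 c * G3 q))
  apply MvPolynomial.ringHom_ext
  · exact h
  · exact h3

/-- the ring homomorphism with given coordinates -/
noncomputable def lft {K : Type} [Field K] (φ : k →+* K) {S : Type} [CommRing S] [Algebra K S]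
    (x y z : S) (hF : IsUnit (F4 (fun i j => φ (c i j)) x y z))
    (hG : IsUnit (qf (fun i => φ (q i)) x y z)) : R3 c q →+* S :=
  (ex_hom φ x y z hF hG).choose

theorem lft_spec {K : Type} [Field K] (φ : k →+* K) {S : Type} [CommRing S] [Algebra K S]
    (x y z : S) (hF : IsUnit (F4 (fun i j => φ (c i j)) x y z))
    (hG : IsUnit (qf (fun i => φ (q i)) x y z)) :
    (∀ d, lft φ x y z hF hG (algebraMap k (R3 c q) d) = algebraMap K S (φ d)) ∧
      lft φ x y z hF hG (co c q 0) = x ∧ lft φ x y z hF hG (co c q 1) = y ∧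
      lft φ x y z hF hG (co c q 2) = z :=
  (ex_hom φ x y z hF hG).choose_spec

theorem img_F {K : Type} [Field K] (φ : k →+* K) {S : Type} [CommRing S] [Algebra K S]
    (ρ : R3 c q →+* S) (hρ : ∀ d, ρ (algebraMap k (R3 c q) d) = algebraMap K S (φ d)) :
    F4 (fun i j => φ (c i j)) (ρ (co c q 0)) (ρ (co c q 1)) (ρ (co c q 2)) =
      ρ (F4 c (co c q 0) (co c q 1) (co c q 2)) :=
  (F4_hom ρ φ hρ c _ _ _).symm

theorem img_G {K : Type} [Field K] (φ : k →+* K) {S : Type} [CommRing S] [Algebra K S]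
    (ρ : R3 c q →+* S) (hρ : ∀ d, ρ (algebraMap k (R3 c q) d) = algebraMap K S (φ d)) :
    qf (fun i => φ (q i)) (ρ (co c q 0)) (ρ (co c q 1)) (ρ (co c q 2)) =
      ρ (qf q (co c q 0) (co c q 1) (co c q 2)) :=
  (qf_hom ρ φ hρ q _ _ _).symm

theorem alg_iff {S : Type} [CommRing S] {A F G E v : S} (h : A * G ^ 2 = F) (hu : IsUnit G) :
    A * E = v * (1 - v) ↔ E * F - G ^ 2 * (v * (1 - v)) = 0 := by
  constructor
  · intro h1
    rw [← h, ← h1]
    ring
  · intro h1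
    apply (hu.pow 2).mul_left_cancel
    rw [← h] at h1
    linear_combination h1

theorem rel_iff {K : Type} [Field K] (φ : k →+* K) {S : Type} [CommRing S] [Algebra K S]
    (ρ : R3 c q →+* S) (hρ : ∀ d, ρ (algebraMap k (R3 c q) d) = algebraMap K S (φ d))
    (a : R3 c q) (ha : a * qf q (co c q 0) (co c q 1) (co c q 2) ^ 2 =
      F4 c (co c q 0) (co c q 1) (co c q 2)) (E v : S) :
    ρ a * E = v * (1 - v) ↔
      E * F4 (fun i j => φ (c i j)) (ρ (co c q 0)) (ρ (co c q 1)) (ρ (co c q 2)) -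
        qf (fun i => φ (q i)) (ρ (co c q 0)) (ρ (co c q 1)) (ρ (co c q 2)) ^ 2 *
          (v * (1 - v)) = 0 := by
  rw [img_F φ ρ hρ, img_G φ ρ hρ]
  refine alg_iff ?_ ((co_unit c q).2.map ρ)
  rw [← ha, map_mul, map_pow]

/-- the fibre, in coordinates -/
def FibE {K : Type} [Field K] (φ : k →+* K) (c : ℕ → ℕ → k) (q : Fin 6 → k) (e : K) (n : ℕ) :
    KFn K where
  obj S _ _ := {x : S × S × S × S //
    IsUnit (F4 (fun i j => φ (c i j)) x.1 x.2.1 x.2.2.1) ∧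
    IsUnit (qf (fun i => φ (q i)) x.1 x.2.1 x.2.2.1) ∧
    algebraMap K S e ^ n * F4 (fun i j => φ (c i j)) x.1 x.2.1 x.2.2.1 -
      qf (fun i => φ (q i)) x.1 x.2.1 x.2.2.1 ^ 2 * (x.2.2.2 * (1 - x.2.2.2)) = 0}
  map {S T} _ _ _ _ f x := ⟨(f x.1.1, f x.1.2.1, f x.1.2.2.1, f x.1.2.2.2), by
      rw [← F4_map]
      exact x.2.1.map f, by
      rw [← qf_map]
      exact x.2.2.1.map f, by
      have h1 := congrArg f x.2.2.2
      rw [map_zero, map_sub, map_mul, map_mul, map_mul, map_pow, map_pow, F4_map, qf_map,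
        map_sub, map_one, AlgHom.commutes] at h1
      exact h1⟩
  id_map _ := rfl
  comp_map _ _ _ := rfl

/-- the fibre in coordinates is the fibre -/
def fibEIso {K : Type} [Field K] (φ : k →+* K) (c : ℕ → ℕ → k) (q : Fin 6 → k) (e : K) (n : ℕ) :
    Iso (FibE φ c q e n) (Fib (fun i j => φ (c i j)) (fun i => φ (q i)) (e ^ n)) where
  hom {S} _ _ x := ⟨⟨⟨x.1, by
      change algebraMap K S (e ^ n) * F4 (fun i j => φ (c i j)) x.1.1 x.1.2.1 x.1.2.2.1 -
        qf (fun i => φ (q i)) x.1.1 x.1.2.1 x.1.2.2.1 ^ 2 * (x.1.2.2.2 * (1 - x.1.2.2.2)) = 0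
      rw [map_pow]
      exact x.2.2.2⟩, x.2.1⟩, x.2.2.1⟩
  inv {S} _ _ x := ⟨x.1.1.1, x.1.2, x.2, by
      have h : algebraMap K S (e ^ n) * F4 (fun i j => φ (c i j)) x.1.1.1.1 x.1.1.1.2.1
        x.1.1.1.2.2.1 - qf (fun i => φ (q i)) x.1.1.1.1 x.1.1.1.2.1 x.1.1.1.2.2.1 ^ 2 *
          (x.1.1.1.2.2.2 * (1 - x.1.1.1.2.2.2)) = 0 := x.1.1.2
      rw [map_pow] at h
      exact h⟩
  inv_hom _ := rfl
  hom_inv _ := rfl
  nat _ _ := rfl

/-- the fibre of the quotient in coordinates -/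
noncomputable def fibIso {K : Type} [Field K] (φ : k[X] →+* K) (n : ℕ) (a : R3 c q)
    (ha : a * qf q (co c q 0) (co c q 1) (co c q 2) ^ 2 =
      F4 c (co c q 0) (co c q 1) (co c q 2)) :
    Iso (dblF φ a n) (FibE (φ.comp C) c q (φ X) n) where
  hom {S} _ _ s := ⟨(s.1.1 (co c q 0), s.1.1 (co c q 1), s.1.1 (co c q 2), s.1.2), by
      have h := img_F (φ.comp C) s.1.1 s.2.1
      exact h ▸ (co_unit c q).1.map s.1.1, by
      have h := img_G (φ.comp C) s.1.1 s.2.1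
      exact h ▸ (co_unit c q).2.map s.1.1,
      (rel_iff (φ.comp C) s.1.1 s.2.1 a ha _ _).1 s.2.2⟩
  inv {S} _ _ s := ⟨(lft (φ.comp C) s.1.1 s.1.2.1 s.1.2.2.1 s.2.1 s.2.2.1, s.1.2.2.2),
      (lft_spec (φ.comp C) s.1.1 s.1.2.1 s.1.2.2.1 s.2.1 s.2.2.1).1, by
      have h := lft_spec (φ.comp C) s.1.1 s.1.2.1 s.1.2.2.1 s.2.1 s.2.2.1
      refine (rel_iff (φ.comp C) _ h.1 a ha _ _).2 ?_
      rw [h.2.1, h.2.2.1, h.2.2.2]
      exact s.2.2.2⟩
  inv_hom {S} _ _ s := by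
    apply Subtype.ext
    refine Prod.ext ?_ rfl
    have h0 : IsUnit (F4 (fun i j => (φ.comp C) (c i j)) (s.1.1 (co c q 0)) (s.1.1 (co c q 1))
      (s.1.1 (co c q 2))) := img_F (φ.comp C) s.1.1 s.2.1 ▸ (co_unit c q).1.map s.1.1
    have h1 : IsUnit (qf (fun i => (φ.comp C) (q i)) (s.1.1 (co c q 0)) (s.1.1 (co c q 1))
      (s.1.1 (co c q 2))) := img_G (φ.comp C) s.1.1 s.2.1 ▸ (co_unit c q).2.map s.1.1
    have hs := lft_spec (φ.comp C) (s.1.1 (co c q 0)) (s.1.1 (co c q 1)) (s.1.1 (co c q 2)) h0 h1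
    refine hom_ext3 _ _ ?_ ?_
    · intro d
      exact (hs.1 d).trans (s.2.1 d).symm
    · intro i
      fin_cases i
      · exact hs.2.1
      · exact hs.2.2.1
      · exact hs.2.2.2
  hom_inv {S} _ _ s := by
    have hs := lft_spec (φ.comp C) s.1.1 s.1.2.1 s.1.2.2.1 s.2.1 s.2.2.1
    apply Subtype.ext
    exact Prod.ext hs.2.1 (Prod.ext hs.2.2.1 (Prod.ext hs.2.2.2 rfl))
  nat _ _ := rfl

/-- the blocks of the geometric part -/
structure Blocks : Prop where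
  cone_mem : ∀ {K : Type} [Field K] [IsAlgClosed K]
    {G : ∀ (R : Type) [CommRing R] [Algebra K R], Prop} (_ : (2 : K) ≠ 0) (_ : GOps K G)
    (c : ℕ → ℕ → K), (∀ v : Fin 3 → K, v ≠ 0 → ¬ Inv c v) → (CV c).Mem G
  cone_tr : ∀ {K : Type} [Field K] [IsAlgClosed K]
    {G : ∀ (R : Type) [CommRing R] [Algebra K R], Prop} (_ : (2 : K) ≠ 0) (_ : GOps K G)
    (c : ℕ → ℕ → K) (q : Fin 6 → K) (v : Fin 3 → K), v ≠ 0 → Inv c v → ¬ InvQ q v →
    ((CV c).cls (CV.q c q)).Mem G → (CV c).Mem G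
  cone_conic : ∀ {K : Type} [Field K] [IsAlgClosed K]
    {G : ∀ (R : Type) [CommRing R] [Algebra K R], Prop} (_ : GOps K G) {k : Type} [Field k]
    [Finite k] [Algebra k K], Cst k G → ∀ (c : ℕ → ℕ → k) (q : Fin 6 → k), q ≠ 0 → ∀ e : K,
    4 * e ≠ 0 → ((CV (Qc (fun i j => algebraMap k K (c i j)) (fun i => algebraMap k K (q i))
      e)).cls (CV.q _ (fun i => algebraMap k K (q i)))).Mem G
  fib_ne : ∀ {K : Type} [Field K] [IsAlgClosed K]
    {G : ∀ (R : Type) [CommRing R] [Algebra K R], Prop} (_ : (2 : K) ≠ 0) (_ : GOps K G)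
    {k : Type} [Field k] [Finite k] [Algebra k K], Cst k G → ∀ (c : ℕ → ℕ → k) (q : Fin 6 → k),
    (∃ i j, i + j ≤ 4 ∧ c i j ≠ 0) → q ≠ 0 → ∀ e : K, e ≠ 0 →
    (CV (Qc (fun i j => algebraMap k K (c i j)) (fun i => algebraMap k K (q i)) e)).Mem G →
    (Fib (fun i j => algebraMap k K (c i j)) (fun i => algebraMap k K (q i)) e).Mem G
  fib_zero : ∀ {K : Type} [Field K] [IsAlgClosed K]
    {G : ∀ (R : Type) [CommRing R] [Algebra K R], Prop} (_ : GOps K G)
    {k : Type} [Field k] [Finite k] [Algebra k K], Cst k G → ∀ (c : ℕ → ℕ → k) (q : Fin 6 → k),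
    (∃ i j, i + j ≤ 4 ∧ c i j ≠ 0) → q ≠ 0 →
    (Fib (fun i j => algebraMap k K (c i j)) (fun i => algebraMap k K (q i)) 0).Mem G
  desc : ∀ {k K : Type} [Field k] [Finite k] [Field K] [Algebra k K] (c : ℕ → ℕ → k)
    (q : Fin 6 → k) (v : Fin 3 → K), v ≠ 0 → Inv (fun i j => algebraMap k K (c i j)) v →
    InvQ (fun i => algebraMap k K (q i)) v → ∃ u : Fin 3 → k, u ≠ 0 ∧ Inv c u ∧ InvQ q u

/-- the fibres are in the class -/
theorem fib_all (B : Blocks) [Finite k] {K : Type} [Field K] [IsAlgClosed K]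
    {G : ∀ (R : Type) [CommRing R] [Algebra K R], Prop} (h2 : (2 : K) ≠ 0) (hG : GOps K G)
    [Algebra k K] (hW : Cst k G) (hc : ∃ i j, i + j ≤ 4 ∧ c i j ≠ 0) (hq : q ≠ 0)
    (hinv : ¬ ∃ u : Fin 3 → k, u ≠ 0 ∧ Inv c u ∧ InvQ q u) (e : K) :
    (Fib (fun i j => algebraMap k K (c i j)) (fun i => algebraMap k K (q i)) e).Mem G := by
  by_cases he : e = 0
  · rw [he]
    exact B.fib_zero hG hW c q hc hq
  refine B.fib_ne h2 hG hW c q hc hq e he ?_
  by_cases h : ∀ v : Fin 3 → K, v ≠ 0 →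
      ¬ Inv (Qc (fun i j => algebraMap k K (c i j)) (fun i => algebraMap k K (q i)) e) v
  · exact B.cone_mem h2 hG _ h
  push Not at h
  obtain ⟨v, hv, hi⟩ := h
  have h4 : 4 * e ≠ 0 := by
    have h5 : (4 : K) = 2 * 2 := by norm_num
    rw [h5]
    exact mul_ne_zero (mul_ne_zero h2 h2) he
  by_cases hQ : InvQ (fun i => algebraMap k K (q i)) v
  · exfalso
    refine hinv (B.desc c q v hv ?_ hQ)
    intro R _ _ x y z t
    have h1 := hi R x y z t
    rw [F4_Qc, F4_Qc, hQ R x y z t] at h1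
    have h6 : IsUnit (4 * algebraMap K R e) := by
      have h7 : (4 : R) * algebraMap K R e = algebraMap K R (4 * e) := by
        rw [map_mul, map_ofNat]
      rw [h7]
      exact unit_const h4
    apply h6.mul_left_cancel
    linear_combination -h1
  · exact B.cone_tr h2 hG _ _ v hv hi hQ (B.cone_conic hG hW c q hq e h4)

variable (c q)

/-- **the quotient of the cone** -/
theorem dbl_cone (B : Blocks) {p : ℕ} (hp : p.Prime) (hp2 : p ≠ 2)
    {P : ∀ (A : Type) [CommRing A], Prop} (hP : FormalClass p P) [Finite k] [CharP k p]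
    (hc : ∃ i j, i + j ≤ 4 ∧ c i j ≠ 0) (hq : q ≠ 0)
    (hinv : ¬ ∃ u : Fin 3 → k, u ≠ 0 ∧ Inv c u ∧ InvQ q u) (n : ℕ) (a : R3 c q)
    (ha : a * qf q (co c q 0) (co c q 1) (co c q 2) ^ 2 =
      F4 c (co c q 0) (co c q 1) (co c q 2)) : P (Dbl (R3 c q) n a) := by
  refine dbl_mem hp hP k (R3 c q) (ft_loc (ft_fin 3) _) a n ?_
  intro K _ _ _ φ G hG hW
  have h2 : (2 : K) ≠ 0 := by
    intro h0
    have h1 := (CharP.cast_eq_zero_iff K p 2).1 (by exact_mod_cast h0)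
    exact hp2 ((Nat.prime_dvd_prime_iff_eq hp Nat.prime_two).1 h1)
  refine Mem.of_iso (fibIso φ n a ha) ?_
  refine Mem.of_iso (fibEIso (φ.comp C) c q (φ X) n) ?_
  let _ : Algebra k K := (φ.comp C).toAlgebra
  exact fib_all B h2 hG (hW _) hc hq hinv _

end

end Pool.Agent.Helper9.QP
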