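import Pool.Agent.Helper67.CQ.Z2

/-!
# The rings `R[w]/(b w ^ n - a)`: inseparable covers
-/

set_option autoImplicit false

namespace Pool.Agent.Helper9.QP

open Polynomial
open Pool.Agent.Helper87.CC (IsLC isLC_std ft_of_surj ft_of_hom ft_loc ft_alg)
open Pool.Agent.Helper29.CQ (FormalClass)
open Pool.Agent.Helper67.CQ
open MvPolynomial (eval₂Hom)

variable {p : ℕ} {P : ∀ (A : Type) [CommRing A], Prop}

/-- `B = R[w]/(b w ^ n - a)` -/
structure IsGen {R B : Type} [CommRing R] [CommRing B] (i : R →+* B) (w : B) (n : ℕ) (b a : R) :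
    Prop where
  rel : i b * w ^ n = i a
  ex : ∀ (E : Type) [CommRing E] (v : R →+* E) (c : E), v b * c ^ n = v a →
    ∃ h : B →+* E, h.comp i = v ∧ h w = c
  uniq : ∀ (E : Type) [CommRing E] (h h' : B →+* E), h.comp i = h'.comp i → h w = h' w → h = h'

/-- the standard model -/
abbrev Gen (R : Type) [CommRing R] (n : ℕ) (b a : R) : Type :=
  AdjoinRoot (C b * X ^ n - C a : R[X])

theorem isGen_std {R : Type} [CommRing R] (n : ℕ) (b a : R) :
    IsGen (AdjoinRoot.of (C b * X ^ n - C a : R[X])) (AdjoinRoot.root (C b * X ^ n - C a : R[X]))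
      n b a where
  rel := by
    have h := AdjoinRoot.eval₂_root (C b * X ^ n - C a : R[X])
    rw [eval₂_sub, eval₂_mul, eval₂_X_pow, eval₂_C, eval₂_C, sub_eq_zero] at h
    exact h
  ex E _ v c h := by
    have h1 : (C b * X ^ n - C a : R[X]).eval₂ v c = 0 := by
      rw [eval₂_sub, eval₂_mul, eval₂_X_pow, eval₂_C, eval₂_C, h, sub_self]
    exact ⟨AdjoinRoot.lift v c h1, AdjoinRoot.lift_comp_of h1, AdjoinRoot.lift_root h1⟩
  uniq E _ h h' h1 h2 := by
    refine AdjoinRoot.ringHom_ext ?_ h2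
    exact h1

theorem IsGen.ft {R B : Type} [CommRing R] [CommRing B] {i : R →+* B} {w : B} {n : ℕ} {b a : R}
    (hB : IsGen i w n b a) (hR : Algebra.FiniteType ℤ R) : Algebra.FiniteType ℤ B := by
  have h1 : Algebra.FiniteType ℤ R[X] := ft_alg hR inferInstance
  have h2 : Algebra.FiniteType ℤ (AdjoinRoot (C b * X ^ n - C a : R[X])) :=
    ft_of_surj h1 (AdjoinRoot.mk _) AdjoinRoot.mk_surjective
  obtain ⟨f, f1, f2⟩ := (isGen_std n b a).ex B i w hB.rel
  obtain ⟨g, g1, g2⟩ := hB.ex _ _ _ (isGen_std n b a).rel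
  refine ft_of_surj h2 f fun x => ⟨g x, ?_⟩
  have h3 : f.comp g = RingHom.id B := by
    refine hB.uniq _ _ _ ?_ ?_
    · rw [RingHom.comp_assoc, g1, f1, RingHom.id_comp]
    · rw [RingHom.comp_apply, g2, f2, RingHom.id_apply]
  exact RingHom.congr_fun h3 x

theorem IsGen.char {R B : Type} [CommRing R] [CommRing B] {i : R →+* B} {w : B} {n : ℕ} {b a : R}
    (_ : IsGen i w n b a) (hR : (p : R) = 0) : (p : B) = 0 := by
  rw [← map_natCast i, hR, map_zero]

theorem gen_insep {k : Type} [Field k] [Finite k] (hP : FormalClass p P) [hpp : Fact p.Prime]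
    (hk : (p : k) = 0) {m : ℕ} (b f c g : MvPolynomial (Fin 2) k) (hbc : ex p k b = c ^ p)
    (hfg : ex p k f = g ^ p) (h : P (Gen (MvPolynomial (Fin 2) k) m c g)) :
    P (Gen (MvPolynomial (Fin 2) k) (p * m) b f) := by
  have hp0 : p ≠ 0 := hpp.out.ne_zero
  obtain ⟨B, hB0, i, w, hB⟩ : ∃ (B : Type) (_ : CommRing B) (i : MvPolynomial (Fin 2) k →+* B)
      (w : B), IsGen i w (p * m) b f ∧
      Nonempty (B ≃+* Gen (MvPolynomial (Fin 2) k) (p * m) b f) :=
    ⟨Gen (MvPolynomial (Fin 2) k) (p * m) b f, inferInstance, _, _, isGen_std (p * m) b f,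
      ⟨RingEquiv.refl _⟩⟩
  obtain ⟨hB, ⟨eB⟩⟩ := hB
  obtain ⟨K, hK0, iK, wK, hK, ⟨eK⟩⟩ : ∃ (K : Type) (_ : CommRing K)
      (iK : MvPolynomial (Fin 2) k →+* K) (wK : K), IsGen iK wK m c g ∧
      Nonempty (Gen (MvPolynomial (Fin 2) k) m c g ≃+* K) :=
    ⟨Gen (MvPolynomial (Fin 2) k) m c g, inferInstance, _, _, isGen_std m c g,
      ⟨RingEquiv.refl _⟩⟩
  have hPK : P K := hP.iso _ _ eK h
  refine hP.iso _ _ eB ?_
  obtain ⟨B', hB'0, j', S', hB', h1⟩ : ∃ (B' : Type) (_ : CommRing B') (j' : B →+* B') (S : B'),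
      IsKum j' S p (i (MvPolynomial.X 0)) ∧ (P B' → P B) :=
    ⟨AdjoinRoot (X ^ p - C (i (MvPolynomial.X 0)) : B[X]), inferInstance, _, _, isKum_std p _,
      adjoin_transfer hP (hB.ft ft_plane) hp0 _⟩
  obtain ⟨D, hD0, j'', T, hD, h2⟩ : ∃ (D : Type) (_ : CommRing D) (j'' : B' →+* D) (T : D),
      IsKum j'' T p (j' (i (MvPolynomial.X 1))) ∧ (P D → P B') :=
    ⟨AdjoinRoot (X ^ p - C (j' (i (MvPolynomial.X 1))) : B'[X]), inferInstance, _, _,
      isKum_std p _, adjoin_transfer hP (hB'.ft (hB.ft ft_plane)) hp0 _⟩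
  apply h1
  apply h2
  have hftD : Algebra.FiniteType ℤ D := hD.ft (hB'.ft (hB.ft ft_plane))
  have hpD : (p : D) = 0 := hD.char (hB'.char (hB.char (char_plane hk)))
  obtain ⟨j, hj⟩ : ∃ j : B →+* D, j = j''.comp j' := ⟨_, rfl⟩
  obtain ⟨S, hS⟩ : ∃ S : D, S = j'' S' := ⟨_, rfl⟩
  have hSp : S ^ p = j (i (MvPolynomial.X 0)) := by
    rw [hS, ← map_pow, hB'.rel, hj, RingHom.comp_apply]
  have hTp : T ^ p = j (i (MvPolynomial.X 1)) := by rw [hD.rel, hj, RingHom.comp_apply]
  obtain ⟨e, he⟩ : ∃ e : MvPolynomial (Fin 2) k →+* D,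
      e = eval₂Hom (j.comp (i.comp MvPolynomial.C)) ![S, T] := ⟨_, rfl⟩
  have he0 : e (MvPolynomial.X 0) = S := by rw [he, MvPolynomial.eval₂Hom_X']; rfl
  have he1 : e (MvPolynomial.X 1) = T := by rw [he, MvPolynomial.eval₂Hom_X']; rfl
  have heC : ∀ c, e (MvPolynomial.C c) = j (i (MvPolynomial.C c)) := fun c => by
    rw [he, MvPolynomial.eval₂Hom_C]; rfl
  have hee : e.comp (ex p k) = j.comp i := by
    apply MvPolynomial.ringHom_ext
    · intro c
      rw [RingHom.comp_apply, ex, MvPolynomial.eval₂Hom_C, heC, RingHom.comp_apply]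
    · intro a
      rw [RingHom.comp_apply, ex, MvPolynomial.eval₂Hom_X', map_pow, RingHom.comp_apply]
      fin_cases a
      · exact (congrArg (· ^ p) he0).trans hSp
      · exact (congrArg (· ^ p) he1).trans hTp
  have hee' : ∀ a, e (ex p k a) = j (i a) := fun a => RingHom.congr_fun hee a
  have hnil : (e c * j w ^ m - e g) ^ p = 0 := by
    rcases subsingleton_or_nontrivial D with h0 | h0
    · exact Subsingleton.elim _ _
    · have hch : CharP D p := (CharP.charP_iff_prime_eq_zero hpp.out).2 hpD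
      rw [sub_pow_char, mul_pow, ← pow_mul, mul_comm m p, ← map_pow e, ← hbc, ← map_pow e, ← hfg,
        hee', hee', ← map_pow, ← map_mul, hB.rel, sub_self]
  -- the reduced ring
  have hexC : ∀ c, ex p k (MvPolynomial.C c) = MvPolynomial.C c := fun c => by
    rw [ex, MvPolynomial.eval₂Hom_C]
  have hexX : ∀ a, ex p k (MvPolynomial.X a) = MvPolynomial.X a ^ p := fun a => by
    rw [ex, MvPolynomial.eval₂Hom_X']
  obtain ⟨q0, q01, q02⟩ := hB.ex K (iK.comp (ex p k)) wK (by
    rw [mul_comm p m, pow_mul, RingHom.comp_apply, RingHom.comp_apply, hbc, hfg, map_pow, map_pow,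
      ← mul_pow, hK.rel])
  obtain ⟨q1, q11, q12⟩ := hB'.ex K q0 (iK (MvPolynomial.X 0)) (by
    rw [← RingHom.comp_apply q0, q01, RingHom.comp_apply, hexX, map_pow])
  obtain ⟨q, q21, q22⟩ := hD.ex K q1 (iK (MvPolynomial.X 1)) (by
    rw [← RingHom.comp_apply q1, q11, ← RingHom.comp_apply q0, q01, RingHom.comp_apply, hexX,
      map_pow])
  have hqj : q.comp j = q0 := by rw [hj, ← RingHom.comp_assoc, q21, q11]
  have hqji : ∀ a, q (j (i a)) = iK (ex p k a) := fun a => by
    have h3 := RingHom.congr_fun hqj (i a)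
    rw [RingHom.comp_apply] at h3
    rw [h3, ← RingHom.comp_apply q0, q01, RingHom.comp_apply]
  have hqw : q (j w) = wK := by
    have h3 := RingHom.congr_fun hqj w
    rw [RingHom.comp_apply] at h3
    rw [h3, q02]
  have hqS : q S = iK (MvPolynomial.X 0) := by
    have h3 := RingHom.congr_fun q21 S'
    rw [RingHom.comp_apply] at h3
    rw [hS, h3, q12]
  have hqe : q.comp e = iK := by
    apply MvPolynomial.ringHom_ext
    · intro c
      rw [RingHom.comp_apply, heC, hqji, hexC]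
    · intro a
      rw [RingHom.comp_apply]
      fin_cases a
      · exact (congrArg q he0).trans hqS
      · exact (congrArg q he1).trans q22
  have hqe' : ∀ a, q (e a) = iK a := fun a => RingHom.congr_fun hqe a
  have hLC : IsLC q (Ideal.span {e c * j w ^ m - e g}) 1 := by
    refine ⟨?_, ?_, ?_, ?_⟩
    · intro b hb
      obtain ⟨t, rfl⟩ := Ideal.mem_span_singleton'.1 hb
      rw [map_mul, map_sub, map_mul, map_pow, hqw, hqe', hqe', hK.rel, sub_self, mul_zero]
    · rw [map_one]; exact isUnit_one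
    · intro E _ u hu _
      have h3 : (u.comp e) c * u (j w) ^ m = (u.comp e) g := by
        have h4 := hu _ (Ideal.mem_span_singleton_self _)
        rw [map_sub, map_mul, map_pow, sub_eq_zero] at h4
        exact h4
      obtain ⟨t, t1, t2⟩ := hK.ex E (u.comp e) (u (j w)) h3
      have t3 : ∀ a, t (iK a) = u (e a) := fun a => RingHom.congr_fun t1 a
      refine ⟨t, ?_⟩
      refine hD.uniq E _ _ ?_ ?_
      · refine hB'.uniq E _ _ ?_ ?_
        · have h5 : ((t.comp q).comp j'').comp j' = t.comp q0 := by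
            rw [RingHom.comp_assoc, RingHom.comp_assoc, ← hj, hqj]
          have h6 : (u.comp j'').comp j' = u.comp j := by rw [RingHom.comp_assoc, ← hj]
          rw [h5, h6]
          refine hB.uniq E _ _ ?_ ?_
          · rw [RingHom.comp_assoc, q01]
            refine RingHom.ext fun a => ?_
            rw [RingHom.comp_apply, RingHom.comp_apply, t3, hee', RingHom.comp_apply,
              RingHom.comp_apply]
          · rw [RingHom.comp_apply, q02, t2, RingHom.comp_apply]
        · rw [RingHom.comp_apply, RingHom.comp_apply, RingHom.comp_apply, ← hS, hqS, t3, he0]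
      · rw [RingHom.comp_apply, q22, t3, he1]
    · intro E _ h3 h4 h5
      refine hK.uniq E _ _ ?_ ?_
      · rw [← hqe, ← RingHom.comp_assoc, h5, RingHom.comp_assoc]
      · rw [← hqw]
        exact RingHom.congr_fun h5 (j w)
  obtain ⟨e1⟩ := hLC.equiv (isLC_quot (e c * j w ^ m - e g))
  refine hP.glue D (e c * j w ^ m - e g) hftD hpD (hP.iso _ _ e1 hPK) (p_zero hP ?_)
  exact (IsLocalization.subsingleton_iff (M := Submonoid.powers (e c * j w ^ m - e g))).2
    ⟨p, hnil⟩

end Pool.Agent.Helper9.QP
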