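import Pool.Agent.Helper9.QP.Kum
import Pool.Agent.Helper9.QP.Insep
import Pool.Agent.Helper9.QP.Defs

/-!
# Cyclic covers `w ^ n = F / G ^ 2` of locally closed subschemes
-/

set_option autoImplicit false

namespace Pool.Agent.Helper9.QP

open Polynomial
open Pool.Agent.Helper87.CC (IsLC isLC_std ft_of_surj ft_of_hom ft_loc ft_alg)
open Pool.Agent.Helper29.CQ (FormalClass)
open Pool.Agent.Helper67.CQ

variable {p : ℕ} {P : ∀ (A : Type) [CommRing A], Prop}

theorem lc_ft {A X : Type} [CommRing A] [CommRing X] {j : A →+* X} {I : Ideal A} {a : A}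
    (h : IsLC j I a) (hA : Algebra.FiniteType ℤ A) : Algebra.FiniteType ℤ X := by
  obtain ⟨e⟩ := (isLC_std I a).equiv h
  have h1 : Algebra.FiniteType ℤ (A ⧸ I) :=
    ft_of_surj hA (Ideal.Quotient.mk I) Ideal.Quotient.mk_surjective
  exact ft_of_surj (ft_loc h1 (Ideal.Quotient.mk I a)) (e : _ →+* X) e.surjective

theorem lc_char {A X : Type} [CommRing A] [CommRing X] (j : A →+* X) (hA : (p : A) = 0) :
    (p : X) = 0 := by
  rw [← map_natCast j, hA, map_zero]

theorem lc_equiv {A X Y : Type} [CommRing A] [CommRing X] [CommRing Y] {j : A →+* X}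
    {j' : A →+* Y} {I : Ideal A} {a : A} (h : IsLC j I a) (h' : IsLC j' I a) :
    ∃ e : X ≃+* Y, ∀ x, e (j x) = j' x := by
  obtain ⟨f, hf⟩ := h.ex Y j' h'.zero h'.unit
  obtain ⟨g, hg⟩ := h'.ex X j h.zero h.unit
  refine ⟨RingEquiv.ofRingHom f g ?_ ?_, fun x => RingHom.congr_fun hf x⟩
  · apply h'.uniq
    rw [RingHom.comp_assoc, hg, hf, RingHom.id_comp]
  · apply h.uniq
    rw [RingHom.comp_assoc, hf, hg, RingHom.id_comp]

/-- the cyclic cover `w ^ n = F / G ^ 2` of the locally closed subscheme `I = 0`, `u ≠ 0` -/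
def QK (P : ∀ (A : Type) [CommRing A], Prop) (n : ℕ) {S : Type} [CommRing S] (F G : S)
    (I : Ideal S) (u : S) : Prop :=
  ∀ (T : Type) [CommRing T] (j : S →+* T) (a : T), IsLC j I u → IsUnit (j G) →
    a * j G ^ 2 = j F → PK P n a

theorem ex_a {S T : Type} [CommRing S] [CommRing T] (j : S →+* T) (F G : S) (h : IsUnit (j G)) :
    ∃ a : T, a * j G ^ 2 = j F := by
  obtain ⟨v, hv⟩ := h
  refine ⟨j F * (v⁻¹ : Tˣ) ^ 2, ?_⟩
  rw [← hv, mul_assoc, ← mul_pow, Units.inv_mul, one_pow, mul_one]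

theorem qk_model (hP : FormalClass p P) {n : ℕ} {S : Type} [CommRing S] {F G : S} {I : Ideal S}
    {u : S} {T : Type} [CommRing T] {j : S →+* T} {a : T} (hj : IsLC j I u)
    (ha : a * j G ^ 2 = j F) (h : PK P n a) : QK P n F G I u := by
  intro T' _ j' a' hj' hG' ha'
  obtain ⟨e, he⟩ := lc_equiv hj hj'
  have h1 : e a = a' := by
    apply (hG'.pow 2).mul_right_cancel
    rw [ha', ← he, ← he, ← ha, map_mul, map_pow]
  rw [← h1]
  exact pk_iso hP e a h

theorem qk_glue (hP : FormalClass p P) {n : ℕ} {S : Type} [CommRing S]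
    (hft : Algebra.FiniteType ℤ S) (hp : (p : S) = 0) {F G : S} {I : Ideal S} {u : S} (f : S)
    (h0 : QK P n F G (I ⊔ Ideal.span {f}) u) (h1 : QK P n F G I (u * f)) : QK P n F G I u := by
  intro T _ j a hj hG ha
  refine pk_glue hP (lc_ft hj hft) (lc_char j hp) a (j f) ?_ ?_
  · refine h0 _ _ _ (lc_quot hj f) ?_ ?_
    · exact hG.map (Ideal.Quotient.mk _)
    · rw [RingHom.comp_apply, RingHom.comp_apply, ← ha, map_mul, map_pow]
  · refine h1 _ _ _ (lc_away hj f) ?_ ?_
    · exact hG.map (algebraMap T (Localization.Away (j f)))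
    · rw [RingHom.comp_apply, RingHom.comp_apply, ← ha, map_mul, map_pow]

theorem qk_open (hP : FormalClass p P) {n : ℕ} {S : Type} [CommRing S] {F G : S} {I : Ideal S}
    {u : S} (f : S) (hGu : G ∣ u) (h0 : QK P n F G (I ⊔ Ideal.span {f}) u)
    (h1 : QK P n F G I u) : QK P n F G I (u * f) := by
  have hj := isLC_std I u
  obtain ⟨T, hT, j, hj⟩ : ∃ (T : Type) (_ : CommRing T) (j : S →+* T), IsLC j I u :=
    ⟨_, _, _, hj⟩
  have hG : IsUnit (j G) := isUnit_of_dvd_unit (map_dvd j hGu) hj.unit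
  obtain ⟨a, ha⟩ := ex_a j F G hG
  refine qk_model hP (lc_away hj f) (a := algebraMap T (Localization.Away (j f)) a) ?_ ?_
  · rw [RingHom.comp_apply, RingHom.comp_apply, ← ha, map_mul, map_pow]
  · refine pk_open hP a (j f) ?_ (h1 T j a hj hG ha)
    refine h0 _ _ _ (lc_quot hj f) ?_ ?_
    · exact hG.map (Ideal.Quotient.mk _)
    · rw [RingHom.comp_apply, RingHom.comp_apply, ← ha, map_mul, map_pow]

theorem qk_curve (hP : FormalClass p P) {n : ℕ} (hn : n ≠ 0) {S : Type} [CommRing S]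
    (hft : Algebra.FiniteType ℤ S) (hp : (p : S) = 0) {F G : S} {I : Ideal S} {u : S}
    (hd : ringKrullDim (S ⧸ I) ≤ 1) : QK P n F G I u := by
  intro T _ j a hj _ _
  refine pk_curve hP hn (lc_ft hj hft) (lc_char j hp) ?_ a
  obtain ⟨e⟩ := (isLC_std I u).equiv hj
  rw [← ringKrullDim_eq_of_ringEquiv e]
  exact dim_away _ hd

/-! ### Forms in two variables -/

/-- quadratic forms in two variables -/
def bq {k : Type} [Field k] {R : Type} [CommRing R] [Algebra k R] (b : Fin 3 → k) (x y : R) : R :=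
  algebraMap k R (b 0) * x ^ 2 + algebraMap k R (b 1) * (x * y) + algebraMap k R (b 2) * y ^ 2

theorem bq_map {k : Type} [Field k] {R S : Type} [CommRing R] [Algebra k R] [CommRing S]
    [Algebra k S] (b : Fin 3 → k) (f : R →ₐ[k] S) (x y : R) : f (bq b x y) = bq b (f x) (f y) := by
  simp [bq]

open Pool.Agent.Helper29.CQ (bin4 bin4_map lead F4 qf F4_map qf_map)

variable {k : Type} [Field k]

/-- the torus over a localisation of the line -/
theorem lc_bin (a : Fin 5 → k) (b : Fin 3 → k) :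
    ∃ j : MvPolynomial (Fin 2) k →+*
        Lau (Localization.Away (bin4 a (X : k[X]) 1 * bq b (X : k[X]) 1)),
      IsLC j ⊥ (bin4 a (MvPolynomial.X 0) (MvPolynomial.X 1) *
        bq b (MvPolynomial.X 0) (MvPolynomial.X 1) * MvPolynomial.X 1) ∧
      ∀ c : Localization.Away (bin4 a (X : k[X]) 1 * bq b (X : k[X]) 1),
        c * algebraMap _ _ (bq b (X : k[X]) 1) ^ 2 = algebraMap _ _ (bin4 a (X : k[X]) 1) →
        cL c * j (bq b (MvPolynomial.X 0) (MvPolynomial.X 1)) ^ 2 =
          j (bin4 a (MvPolynomial.X 0) (MvPolynomial.X 1)) := by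
  set C0 := Localization.Away (bin4 a (X : k[X]) 1 * bq b (X : k[X]) 1) with hC0
  let ι : k[X] →ₐ[k] C0 := IsScalarTower.toAlgHom k k[X] C0
  let m : C0 →ₐ[k] Lau C0 := (IsScalarTower.toAlgHom k C0[X] (Lau C0)).comp
    (IsScalarTower.toAlgHom k C0 C0[X])
  have hm : ∀ c, m c = cL c := fun c => rfl
  let Z : Lau C0 := algebraMap C0[X] (Lau C0) X
  have hZ : IsUnit Z := IsLocalization.Away.algebraMap_isUnit (X : C0[X])
  let y : Lau C0 := m (ι X)
  let j : MvPolynomial (Fin 2) k →ₐ[k] Lau C0 := MvPolynomial.aeval ![y * Z, Z]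
  have j0 : j (MvPolynomial.X 0) = y * Z := by simp [j]
  have j1 : j (MvPolynomial.X 1) = Z := by simp [j]
  have hF : ∀ (E : Type) [CommRing E] [Algebra k E] (s t : E),
      bin4 a (s * t) t = t ^ 4 * bin4 a s 1 := by
    intro E _ _ s t
    simp only [bin4]
    ring
  have hG : ∀ (E : Type) [CommRing E] [Algebra k E] (s t : E),
      bq b (s * t) t = t ^ 2 * bq b s 1 := by
    intro E _ _ s t
    simp only [bq]
    ring
  have jF : j (bin4 a (MvPolynomial.X 0) (MvPolynomial.X 1)) = Z ^ 4 * m (ι (bin4 a X 1)) := by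
    rw [bin4_map, j0, j1, hF, bin4_map, bin4_map, map_one, map_one]
  have jG : j (bq b (MvPolynomial.X 0) (MvPolynomial.X 1)) = Z ^ 2 * m (ι (bq b X 1)) := by
    rw [bq_map, j0, j1, hG, bq_map, bq_map, map_one, map_one]
  have hu : IsUnit (ι (bin4 a (X : k[X]) 1 * bq b (X : k[X]) 1)) :=
    IsLocalization.Away.algebraMap_isUnit _
  refine ⟨(j : MvPolynomial (Fin 2) k →+* Lau C0), ⟨?_, ?_, ?_, ?_⟩, ?_⟩
  · intro x hx
    rw [Ideal.mem_bot.1 hx, map_zero]
  · change IsUnit (j _)
    rw [map_mul, map_mul, jF, jG, j1]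
    rw [map_mul] at hu
    have h1 := (isUnit_of_mul_isUnit_left hu).map m
    have h2 := (isUnit_of_mul_isUnit_right hu).map m
    exact (((hZ.pow 4).mul h1).mul ((hZ.pow 2).mul h2)).mul hZ
  · intro E _ v _ hv
    let _ : Algebra k E := (v.comp MvPolynomial.C).toAlgebra
    let v' : MvPolynomial (Fin 2) k →ₐ[k] E := { v with commutes' := fun _ => rfl }
    have hv' : ∀ x, v' x = v x := fun _ => rfl
    have hu0 : IsUnit (v' (bin4 a (MvPolynomial.X 0) (MvPolynomial.X 1)) *
        v' (bq b (MvPolynomial.X 0) (MvPolynomial.X 1)) * v' (MvPolynomial.X 1)) := by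
      rw [← map_mul, ← map_mul]
      exact hv
    have hut : IsUnit (v' (MvPolynomial.X 1)) := isUnit_of_mul_isUnit_right hu0
    have hu1 := isUnit_of_mul_isUnit_left hu0
    obtain ⟨t, ht⟩ := hut
    set s : E := v' (MvPolynomial.X 0) * (t⁻¹ : Eˣ) with hs
    have hst : v' (MvPolynomial.X 0) = s * t := by
      rw [hs, mul_assoc, Units.inv_mul, mul_one]
    rw [bin4_map, bq_map, hst, ← ht, hF, hG] at hu1
    let φ : k[X] →ₐ[k] E := aeval s
    have hφ : IsUnit (φ (bin4 a (X : k[X]) 1 * bq b (X : k[X]) 1)) := by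
      rw [map_mul, bin4_map, bq_map, map_one, aeval_X]
      exact (isUnit_of_mul_isUnit_right (isUnit_of_mul_isUnit_left hu1)).mul
        (isUnit_of_mul_isUnit_right (isUnit_of_mul_isUnit_right hu1))
    let g0 : C0 →+* E := IsLocalization.Away.lift (g := (φ : k[X] →+* E)) _ hφ
    have hg0 : ∀ x, g0 (algebraMap k[X] C0 x) = φ x := fun x =>
      IsLocalization.Away.lift_eq (g := (φ : k[X] →+* E)) _ hφ x
    let g1 : C0[X] →+* E := eval₂RingHom g0 (t : E)
    have hg1 : IsUnit (g1 X) := by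
      rw [coe_eval₂RingHom, eval₂_X]
      exact t.isUnit
    let g2 : Lau C0 →+* E := IsLocalization.Away.lift (g := g1) (X : C0[X]) hg1
    have hg2 : ∀ x, g2 (algebraMap C0[X] (Lau C0) x) = g1 x := fun x =>
      IsLocalization.Away.lift_eq (g := g1) _ hg1 x
    refine ⟨g2, ?_⟩
    apply MvPolynomial.ringHom_ext
    · intro c
      rw [RingHom.comp_apply]
      have h1 : (j : MvPolynomial (Fin 2) k →+* Lau C0) (MvPolynomial.C c) =
          algebraMap C0[X] (Lau C0) (C (algebraMap k[X] C0 (C c))) := by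
        change j (algebraMap k _ c) = _
        rw [AlgHom.commutes]
        rfl
      rw [h1, hg2, coe_eval₂RingHom, eval₂_C, hg0]
      change aeval s (C c) = _
      rw [aeval_C]
      rfl
    · intro i
      rw [RingHom.comp_apply]
      fin_cases i
      · change g2 (j (MvPolynomial.X 0)) = v' (MvPolynomial.X 0)
        have h1 : g2 y = s := by
          change g2 (algebraMap C0[X] (Lau C0) (C (algebraMap k[X] C0 X))) = s
          rw [hg2, coe_eval₂RingHom, eval₂_C, hg0]
          exact aeval_X s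
        rw [j0, map_mul, h1, hst]
        congr 1
        change g2 (algebraMap C0[X] (Lau C0) X) = _
        rw [hg2, coe_eval₂RingHom, eval₂_X]
      · change g2 (j (MvPolynomial.X 1)) = v' (MvPolynomial.X 1)
        rw [j1, ← ht]
        change g2 (algebraMap C0[X] (Lau C0) X) = _
        rw [hg2, coe_eval₂RingHom, eval₂_X]
  · intro E _ h h' hh
    have e0 : h (y * Z) = h' (y * Z) := by
      rw [← j0]
      exact RingHom.congr_fun hh _
    have e1 : h Z = h' Z := by
      rw [← j1]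
      exact RingHom.congr_fun hh _
    have e2 : h y = h' y := by
      rw [map_mul, map_mul, ← e1] at e0
      exact (hZ.map h).mul_right_cancel e0
    apply IsLocalization.ringHom_ext (Submonoid.powers (X : C0[X]))
    refine Polynomial.ringHom_ext' ?_ e1
    apply IsLocalization.ringHom_ext
      (Submonoid.powers (bin4 a (X : k[X]) 1 * bq b (X : k[X]) 1))
    refine Polynomial.ringHom_ext' ?_ e2
    ext c
    have h1 := RingHom.congr_fun hh (MvPolynomial.C c)
    rw [RingHom.comp_apply, RingHom.comp_apply] at h1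
    have h2 : (j : MvPolynomial (Fin 2) k →+* Lau C0) (MvPolynomial.C c) =
          algebraMap C0[X] (Lau C0) (C (algebraMap k[X] C0 (C c))) := by
        change j (algebraMap k _ c) = _
        rw [AlgHom.commutes]
        rfl
    rw [h2] at h1
    exact h1
  · intro c hc
    change cL c * j _ ^ 2 = j _
    rw [jF, jG, ← hm]
    have h1 := congrArg m hc
    rw [map_mul, map_pow] at h1
    change m c * m (ι (bq b X 1)) ^ 2 = m (ι (bin4 a X 1)) at h1
    rw [← h1]
    ring

end Pool.Agent.Helper9.QP
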